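import Pool.Agent.V7H70.Ham.Final

/-!
# Hamiltonicity: deterministic and randomised circuits with few negations
-/

set_option autoImplicit false

namespace Pool.Agent.V7H70.Ham

open Filter Finset Pool.Agent.H520R2.NM

open Classical in
/-- averaging -/
theorem averaging {Λ Ω X : Type} [Fintype Λ] [Fintype Ω] (x : Λ → X) (p : Ω → ℝ)
    (hp : ∀ r, 0 ≤ p r) (hp1 : ∑ r, p r = 1) (Q : Ω → X → Prop) (a : ℝ)
    (h : ∀ r, ((univ.filter fun l => Q r (x l)).card : ℝ) < a * Fintype.card Λ) :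
    ∃ y, ∑ r ∈ univ.filter (fun r => Q r y), p r < a := by
  by_contra hno
  push Not at hno
  have h1 : a * Fintype.card Λ ≤ ∑ l : Λ, ∑ r ∈ univ.filter (fun r => Q r (x l)), p r := by
    have h2 : ∑ _l : Λ, a ≤ ∑ l : Λ, ∑ r ∈ univ.filter (fun r => Q r (x l)), p r :=
      sum_le_sum fun l _ => hno (x l)
    rw [sum_const, card_univ, nsmul_eq_mul] at h2
    linarith
  have h3 : ∑ l : Λ, ∑ r ∈ univ.filter (fun r => Q r (x l)), p r =
      ∑ r, p r * ((univ.filter fun l => Q r (x l)).card : ℝ) := by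
    simp only [sum_filter]
    rw [sum_comm]
    refine sum_congr rfl fun r _ => ?_
    rw [← sum_filter, sum_const, nsmul_eq_mul, mul_comm]
  rw [h3] at h1
  have h4 : ∃ r, 0 < p r := by
    by_contra hn
    push Not at hn
    have : ∑ r, p r ≤ 0 := sum_nonpos fun r _ => hn r
    linarith
  obtain ⟨r0, hr0⟩ := h4
  have h5 : ∑ r, p r * ((univ.filter fun l => Q r (x l)).card : ℝ) <
      ∑ r, p r * (a * Fintype.card Λ) := by
    refine sum_lt_sum (fun r _ => mul_le_mul_of_nonneg_left (h r).le (hp r)) ⟨r0, mem_univ _, ?_⟩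
    exact mul_lt_mul_of_pos_left (h r0) hr0
  rw [← sum_mul, hp1, one_mul] at h5
  linarith

open Classical in
theorem main_rand (γ c : ℝ) (hγ : 0 ≤ γ) (hc : 0 < c) (h : γ + 16 * c < 2) :
    ∃ α : ℝ, 0 < α ∧ ∀ᶠ n : ℕ in atTop,
      (∃ (Λ : Type) (_ : Fintype Λ) (_ : Nonempty Λ)
        (x : Λ → {p : Fin n × Fin n // p.1 < p.2} → Bool),
        ∀ (N : ℕ) (C : Circuit {p : Fin n × Fin n // p.1 < p.2} N)
          (out : Wire {p : Fin n × Fin n // p.1 < p.2} N),
          (((C.fanins.map (· + 1)).prod : ℕ) : ℝ) ≤ (n : ℝ) ^ γ →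
          ((C.size + C.fanins.sum : ℕ) : ℝ) ≤ 2 ^ (n : ℝ) ^ c →
          ((univ.filter fun l : Λ => (out.eval (x l) (C.vals (x l)) = true ↔
            (SimpleGraph.fromRel (fun i j : Fin n =>
              ∃ h : i < j, x l ⟨(i, j), h⟩ = true)).IsHamiltonian)).card : ℝ) <
            (1 / 2 + (n : ℝ) ^ (-α)) * Fintype.card Λ) ∧
      ∀ (Ω : Type) [Fintype Ω] (p : Ω → ℝ), (∀ r, 0 ≤ p r) → ∑ r, p r = 1 →
        ∀ (N : Ω → ℕ) (C : ∀ r, Circuit {p : Fin n × Fin n // p.1 < p.2} (N r))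
          (out : ∀ r, Wire {p : Fin n × Fin n // p.1 < p.2} (N r)),
          (∀ r, ((((C r).fanins.map (· + 1)).prod : ℕ) : ℝ) ≤ (n : ℝ) ^ γ) →
          (∀ r, (((C r).size + (C r).fanins.sum : ℕ) : ℝ) ≤ 2 ^ (n : ℝ) ^ c) →
          ∃ x : {p : Fin n × Fin n // p.1 < p.2} → Bool,
            ∑ r ∈ univ.filter (fun r => (out r).eval x ((C r).vals x) = true ↔
              (SimpleGraph.fromRel (fun i j : Fin n =>
                ∃ h : i < j, x ⟨(i, j), h⟩ = true)).IsHamiltonian), p r <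
              1 / 2 + (n : ℝ) ^ (-α) := by
  obtain ⟨α, hα, hmain⟩ := main γ c hγ hc h
  refine ⟨α, hα, ?_⟩
  filter_upwards [hmain] with n hn
  refine ⟨hn, ?_⟩
  obtain ⟨Λ, i1, _, x, hx⟩ := hn
  intro Ω _ p hp hp1 N C out h1 h2
  have key := averaging x p hp hp1
    (fun r y => ((out r).eval y ((C r).vals y) = true ↔ HamP n y)) (1 / 2 + (n : ℝ) ^ (-α))
    (fun r => by
      have := hx (N r) (C r) (out r) (h1 r) (h2 r)
      convert this)
  obtain ⟨y, hy⟩ := key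
  refine ⟨y, ?_⟩
  convert hy

end Pool.Agent.V7H70.Ham
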