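import Pool.Agent.V7H70.Ham.Graph

/-!
# A biclique yields a Hamilton cycle
-/

set_option autoImplicit false

namespace Pool.Agent.V7H70.Ham

open List

variable {k m B R : ℕ}

/-- the path through one copy, along the row -/
def rowc (r : Row k m) (t : Fin k) : List (Vx k m B) :=
  List.ofFn fun g : Fin 9 => (.inl (r, t, g) : Vx k m B)

/-- the path along a row -/
def rowp (r : Row k m) : List (Vx k m B) := (List.ofFn fun t : Fin k => rowc (B := B) r t).flatten

/-- the order of the vertices of a copy on a check -/
def ord : List (Fin 9) := [6, 7, 8, 3, 4, 5, 0, 1, 2]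

/-- the path of a check -/
def chk (α β : Fin k → Fin m) (s t : Fin k) : List (Vx k m B) :=
  ord.map (fun g => .inl ((false, s, α s), t, g)) ++ ord.map (fun g => .inl ((true, t, β t), s, g))

/-- the selected rows -/
def sel (α β : Fin k → Fin m) (r : Row k m) : Prop :=
  r.2.2 = if r.1 = true then β r.2.1 else α r.2.1

theorem lt_kk (s t : Fin k) : s.val * k + t.val < k * k := by
  have h1 : s.val * k + t.val < (s.val + 1) * k := by
    have := t.2
    rw [Nat.add_mul]
    omega
  have h2 : (s.val + 1) * k ≤ k * k := Nat.mul_le_mul_right k s.2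
  omega

theorem rowc_eq (r : Row k m) (t : Fin k) : rowc (B := B) r t =
    [.inl (r, t, 0), .inl (r, t, 1), .inl (r, t, 2), .inl (r, t, 3), .inl (r, t, 4),
      .inl (r, t, 5), .inl (r, t, 6), .inl (r, t, 7), .inl (r, t, 8)] := rfl

theorem mem_rowc {r : Row k m} {t : Fin k} {v : Vx k m B} :
    v ∈ rowc (B := B) r t ↔ ∃ g, v = .inl (r, t, g) := by
  simp only [rowc, List.mem_ofFn]
  constructor
  · rintro ⟨g, rfl⟩; exact ⟨g, rfl⟩
  · rintro ⟨g, rfl⟩; exact ⟨g, rfl⟩

theorem mem_rowp {r : Row k m} {v : Vx k m B} :
    v ∈ rowp (B := B) r ↔ ∃ t g, v = .inl (r, t, g) := by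
  simp only [rowp, List.mem_flatten, List.mem_ofFn]
  constructor
  · rintro ⟨l, ⟨t, rfl⟩, hv⟩
    obtain ⟨g, rfl⟩ := mem_rowc.mp hv
    exact ⟨t, g, rfl⟩
  · rintro ⟨t, g, rfl⟩
    exact ⟨_, ⟨t, rfl⟩, mem_rowc.mpr ⟨g, rfl⟩⟩

theorem mem_ord (g : Fin 9) : g ∈ ord := by
  revert g; decide

theorem mem_chk {α β : Fin k → Fin m} {s t : Fin k} {v : Vx k m B} :
    v ∈ chk (B := B) α β s t ↔ (∃ g, v = .inl ((false, s, α s), t, g)) ∨
      ∃ g, v = .inl ((true, t, β t), s, g) := by
  simp only [chk, List.mem_append, List.mem_map]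
  constructor
  · rintro (⟨g, _, rfl⟩ | ⟨g, _, rfl⟩)
    · exact Or.inl ⟨g, rfl⟩
    · exact Or.inr ⟨g, rfl⟩
  · rintro (⟨g, rfl⟩ | ⟨g, rfl⟩)
    · exact Or.inl ⟨g, mem_ord g, rfl⟩
    · exact Or.inr ⟨g, mem_ord g, rfl⟩

theorem nodup_rowc (r : Row k m) (t : Fin k) : (rowc (B := B) r t).Nodup := by
  rw [rowc, List.nodup_ofFn]
  intro g g' h
  simpa using h

theorem nodup_rowp (r : Row k m) : (rowp (B := B) r).Nodup := by
  rw [rowp, List.nodup_flatten]
  constructor
  · intro l hl
    rw [List.mem_ofFn] at hl
    obtain ⟨t, rfl⟩ := hl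
    exact nodup_rowc r t
  · rw [List.pairwise_ofFn]
    intro t t' htt v h1 h2
    obtain ⟨g, rfl⟩ := mem_rowc.mp h1
    obtain ⟨g', h⟩ := mem_rowc.mp h2
    simp only [Sum.inl.injEq, Prod.mk.injEq, true_and] at h
    exact absurd h.1 (ne_of_lt htt)

theorem nodup_chk (α β : Fin k → Fin m) (s t : Fin k) : (chk (B := B) α β s t).Nodup := by
  rw [chk, List.nodup_append]
  refine ⟨?_, ?_, ?_⟩
  · refine List.Nodup.map ?_ (by decide)
    intro g g' h
    simpa using h
  · refine List.Nodup.map ?_ (by decide)
    intro g g' h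
    simpa using h
  · intro v hv w hw
    rw [List.mem_map] at hv hw
    obtain ⟨g, _, rfl⟩ := hv
    obtain ⟨g', _, rfl⟩ := hw
    simp

section

variable (ix : Row k m ≃ Fin R)

open Classical in
/-- the segments between the spine vertices -/
noncomputable def seg (α β : Fin k → Fin m) (a : ℕ) : List (Vx k m B) :=
  if h : a < R then (if sel α β (ix.symm ⟨a, h⟩) then [] else rowp (ix.symm ⟨a, h⟩))
  else if h : B ≤ a ∧ a < B + k * k then
    chk α β ⟨(a - B) / k, Nat.div_lt_of_lt_mul (by omega)⟩
      ⟨(a - B) % k, Nat.mod_lt _ (by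
        rcases Nat.eq_zero_or_pos k with h0 | h0
        · subst h0; omega
        · exact h0)⟩
  else []

theorem seg_sel {α β : Fin k → Fin m} {a : ℕ} {r : Row k m} (ha : a = (ix r).val)
    (h : sel α β r) : seg (B := B) ix α β a = [] := by
  subst ha
  rw [seg, dif_pos (ix r).2]
  simp [h]

theorem seg_row {α β : Fin k → Fin m} {a : ℕ} {r : Row k m} (ha : a = (ix r).val)
    (h : ¬ sel α β r) : seg (B := B) ix α β a = rowp r := by
  subst ha
  rw [seg, dif_pos (ix r).2]
  simp [h]

theorem seg_mid {α β : Fin k → Fin m} {a : ℕ} (h1 : R ≤ a) (h2 : a < B) :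
    seg (B := B) ix α β a = [] := by
  rw [seg, dif_neg (by omega), dif_neg (by omega)]

theorem seg_last {α β : Fin k → Fin m} {a : ℕ} (hR : R ≤ B) (h2 : a = B + k * k) :
    seg (B := B) ix α β a = [] := by
  rw [seg, dif_neg (by omega), dif_neg (by omega)]

theorem seg_chk {α β : Fin k → Fin m} {a : ℕ} {s t : Fin k} (hR : R ≤ B)
    (ha : a = B + (s.val * k + t.val)) :
    seg (B := B) ix α β a = chk α β s t := by
  have h1 := lt_kk s t
  have hk : 0 < k := by have := t.2; omega
  rw [seg, dif_neg (by omega), dif_pos (by omega)]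
  have h2 : a - B = s.val * k + t.val := by omega
  have h3 : (a - B) / k = s.val := by
    rw [h2, Nat.add_comm, Nat.add_mul_div_right _ _ hk, Nat.div_eq_of_lt t.2, Nat.zero_add]
  have h4 : (a - B) % k = t.val := by
    rw [h2, Nat.add_comm, Nat.add_mul_mod_self_right, Nat.mod_eq_of_lt t.2]
  congr 1
  · exact Fin.ext h3
  · exact Fin.ext h4

theorem cases_spine (_ : R ≤ B) (a : Fin (B + k * k + 1)) : (∃ r, a.val = (ix r).val) ∨
    (R ≤ a.val ∧ a.val < B) ∨ (∃ s t : Fin k, a.val = B + (s.val * k + t.val)) ∨
      a.val = B + k * k := by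
  by_cases h1 : a.val < R
  · left
    exact ⟨ix.symm ⟨a.val, h1⟩, by rw [Equiv.apply_symm_apply]⟩
  · right
    by_cases h2 : a.val < B
    · left; omega
    · right
      by_cases h3 : a.val = B + k * k
      · exact Or.inr h3
      · left
        have h4 : a.val - B < k * k := by have := a.2; omega
        have hk : 0 < k := by
          rcases Nat.eq_zero_or_pos k with h0 | h0
          · subst h0; omega
          · exact h0
        refine ⟨⟨(a.val - B) / k, Nat.div_lt_of_lt_mul h4⟩, ⟨(a.val - B) % k, Nat.mod_lt _ hk⟩, ?_⟩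
        simp only
        have h5 : (a.val - B) / k * k + (a.val - B) % k = a.val - B := by
          rw [Nat.mul_comm]; exact Nat.div_add_mod _ k
        omega

open Classical in
/-- the position of a vertex -/
noncomputable def pos (α β : Fin k → Fin m) : Vx k m B → ℕ
  | .inr a => a.val
  | .inl (r, t, _) => if sel α β r then
      (if r.1 = true then B + (t.val * k + r.2.1.val) else B + (r.2.1.val * k + t.val))
      else (ix r).val

theorem sel_left {α β : Fin k → Fin m} {s : Fin k} {i : Fin m} :
    sel α β (false, s, i) ↔ i = α s := by simp [sel]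

theorem sel_right {α β : Fin k → Fin m} {s : Fin k} {i : Fin m} :
    sel α β (true, s, i) ↔ i = β s := by simp [sel]

theorem mem_iff (hR : R ≤ B) {α β : Fin k → Fin m} (a : Fin (B + k * k + 1)) (v : Vx k m B) :
    v ∈ (.inr a : Vx k m B) :: seg ix α β a.val ↔ pos ix α β v = a.val := by
  rcases v with ⟨r, t, g⟩ | b
  · simp only [List.mem_cons, reduceCtorEq, false_or]
    rcases cases_spine ix hR a with ⟨r', hr⟩ | ha | ⟨s', t', ha⟩ | ha
    · by_cases hs : sel α β r'
      · rw [seg_sel ix hr hs]
        simp only [List.not_mem_nil, false_iff]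
        simp only [pos]
        have := (ix r').2
        split_ifs with h1 h2
        · omega
        · omega
        · intro h
          have : r = r' := by
            apply ix.injective
            exact Fin.ext (h.trans hr)
          exact h1 (this ▸ hs)
      · rw [seg_row ix hr hs, mem_rowp]
        simp only [pos]
        have := (ix r').2
        constructor
        · rintro ⟨t', g', h⟩
          simp only [Sum.inl.injEq, Prod.mk.injEq] at h
          obtain ⟨rfl, _⟩ := h
          rw [if_neg hs, hr]
        · intro h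
          split_ifs at h with h1 h2
          · omega
          · omega
          · have : r = r' := by
              apply ix.injective
              exact Fin.ext (h.trans hr)
            exact ⟨t, g, by rw [this]⟩
    · rw [seg_mid ix ha.1 ha.2]
      simp only [List.not_mem_nil, false_iff]
      simp only [pos]
      have := (ix r).2
      split_ifs <;> omega
    · rw [seg_chk ix hR ha, mem_chk]
      have hix := (ix r).2
      obtain ⟨d, s, i⟩ := r
      cases d with
      | false =>
        simp only [pos, sel_left, Bool.false_eq_true, if_false, Sum.inl.injEq, Prod.mk.injEq]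
        constructor
        · rintro (⟨g', h⟩ | ⟨g', h⟩)
          · obtain ⟨⟨_, rfl, rfl⟩, rfl, _⟩ := h
            rw [if_pos rfl, ha]
          · simp at h
        · intro h
          split_ifs at h with h1
          · obtain ⟨rfl, rfl⟩ : s = s' ∧ t = t' := decode (by omega)
            exact Or.inl ⟨g, ⟨trivial, rfl, h1⟩, rfl, rfl⟩
          · omega
      | true =>
        simp only [pos, sel_right, if_true, Sum.inl.injEq, Prod.mk.injEq]
        constructor
        · rintro (⟨g', h⟩ | ⟨g', h⟩)
          · simp at h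
          · obtain ⟨⟨_, rfl, rfl⟩, rfl, _⟩ := h
            rw [if_pos rfl, ha]
        · intro h
          split_ifs at h with h1
          · obtain ⟨rfl, rfl⟩ : t = s' ∧ s = t' := decode (by omega)
            exact Or.inr ⟨g, ⟨trivial, rfl, h1⟩, rfl, rfl⟩
          · omega
    · rw [seg_last ix hR ha]
      simp only [List.not_mem_nil, false_iff]
      simp only [pos]
      have h1 := (ix r).2
      have h2 := lt_kk t r.2.1
      have h3 := lt_kk r.2.1 t
      split_ifs <;> omega
  · have : (.inr b : Vx k m B) ∉ seg ix α β a.val := by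
      rcases cases_spine ix hR a with ⟨r', hr⟩ | ha | ⟨s', t', ha⟩ | ha
      · by_cases hs : sel α β r'
        · rw [seg_sel ix hr hs]; simp
        · rw [seg_row ix hr hs, mem_rowp]; simp
      · rw [seg_mid ix ha.1 ha.2]; simp
      · rw [seg_chk ix hR ha, mem_chk]; simp
      · rw [seg_last ix hR ha]; simp
    simp only [List.mem_cons, this, or_false, Sum.inr.injEq, pos]
    exact Fin.ext_iff

theorem pos_lt (hR : R ≤ B) (α β : Fin k → Fin m) (v : Vx k m B) :
    pos ix α β v < B + k * k + 1 := by
  rcases v with ⟨r, t, g⟩ | b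
  · simp only [pos]
    have h1 := (ix r).2
    have h2 := lt_kk t r.2.1
    have h3 := lt_kk r.2.1 t
    split_ifs <;> omega
  · exact b.2

end

section

variable (ix : Row k m ≃ Fin R) (x : Vr k m → Bool)

/-- the number of a row -/
def idx (r : Row k m) : ℕ := (ix r).val

theorem e0 {u v : Vx k m B} (h : E0 (idx ix) u v) : E1 (idx ix) x u v := Or.inl h

theorem chain_rowc (r : Row k m) (t : Fin k) : (rowc (B := B) r t).IsChain (E1 (idx ix) x) := by
  rw [rowc, List.isChain_ofFn]
  intro i hi
  refine e0 ix x ?_
  simp only [E0, true_and]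
  left
  exact Or.inl rfl

theorem chain_rowp (r : Row k m) : (rowp (B := B) r).IsChain (E1 (idx ix) x) := by
  rw [rowp, List.isChain_flatten]
  · constructor
    · intro l hl
      rw [List.mem_ofFn] at hl
      obtain ⟨t, rfl⟩ := hl
      exact chain_rowc ix x r t
    · rw [List.isChain_ofFn]
      intro i hi v hv w hw
      rw [rowc_eq] at hv hw
      simp only [List.getLast?_cons_cons, List.getLast?_singleton, Option.mem_def,
        Option.some.injEq, List.head?_cons] at hv hw
      subst hv
      subst hw
      refine e0 ix x ?_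
      simp only [E0, true_and]
      right
      exact ⟨rfl, rfl⟩
  · rw [List.mem_ofFn]
    rintro ⟨t, ht⟩
    rw [rowc_eq] at ht
    simp at ht

theorem head_rowp (hk : 0 < k) (r : Row k m) :
    (rowp (B := B) r).head? = some (.inl (r, ⟨0, hk⟩, 0)) := by
  obtain ⟨k', rfl⟩ : ∃ k', k = k' + 1 := ⟨k - 1, by omega⟩
  rw [rowp, List.ofFn_succ, List.flatten_cons, rowc_eq]
  rfl

theorem last_rowp (hk : 0 < k) (r : Row k m) :
    (rowp (B := B) r).getLast? = some (.inl (r, ⟨k - 1, by omega⟩, 8)) := by
  obtain ⟨k', rfl⟩ : ∃ k', k = k' + 1 := ⟨k - 1, by omega⟩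
  rw [rowp, List.ofFn_succ', List.concat_eq_append, List.flatten_append, List.flatten_singleton,
    List.getLast?_append_of_ne_nil _ (by rw [rowc_eq]; simp), rowc_eq]
  rfl

theorem chain_chk {α β : Fin k → Fin m} {s t : Fin k} (hx : x ((s, α s), (t, β t)) = true) :
    (chk (B := B) α β s t).IsChain (E1 (idx ix) x) := by
  have hm : E1 (idx ix) x (.inl ((false, s, α s), t, 2) : Vx k m B)
      (.inl ((true, t, β t), s, 6)) := by
    right
    refine ⟨((s, α s), (t, β t)), ?_, hx⟩
    rw [mid_ll]
    exact ⟨⟨rfl, rfl, rfl, rfl, rfl, rfl⟩, rfl⟩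
  have hg : ∀ (r : Row k m) (t : Fin k) (g g' : Fin 9), gad g g' →
      E1 (idx ix) x (.inl (r, t, g) : Vx k m B) (.inl (r, t, g')) := by
    intro r t g g' h
    left
    simp only [E0, true_and]
    exact Or.inl h
  have g67 : gad 6 7 := Or.inl rfl
  have g78 : gad 7 8 := Or.inl rfl
  have g83 : gad 8 3 := Or.inr (Or.inl ⟨rfl, rfl⟩)
  have g34 : gad 3 4 := Or.inl rfl
  have g45 : gad 4 5 := Or.inl rfl
  have g50 : gad 5 0 := Or.inr (Or.inr ⟨rfl, rfl⟩)
  have g01 : gad 0 1 := Or.inl rfl
  have g12 : gad 1 2 := Or.inl rfl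
  simp only [chk, ord, List.map_cons, List.map_nil, List.cons_append, List.nil_append,
    List.isChain_cons_cons, List.isChain_singleton, and_true]
  exact ⟨hg _ _ _ _ g67, hg _ _ _ _ g78, hg _ _ _ _ g83, hg _ _ _ _ g34, hg _ _ _ _ g45,
    hg _ _ _ _ g50, hg _ _ _ _ g01, hg _ _ _ _ g12, hm, hg _ _ _ _ g67, hg _ _ _ _ g78,
    hg _ _ _ _ g83, hg _ _ _ _ g34, hg _ _ _ _ g45,
    hg _ _ _ _ g50, hg _ _ _ _ g01, hg _ _ _ _ g12⟩

theorem ne_of_e1 (hB : 0 < B) {u v : Vx k m B} (h : E1 (idx ix) x u v) : u ≠ v := by
  rintro rfl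
  rcases u with ⟨r, t, g⟩ | a
  · rcases h with h | ⟨c, h, _⟩
    · simp only [E0, gad, true_and] at h
      omega
    · rw [mid_ll] at h
      have h1 := h.1.1
      have h2 := h.1.2.1
      rw [h1] at h2
      exact absurd h2 (by simp)
  · rcases h with h | ⟨c, h, _⟩
    · simp only [E0] at h
      omega
    · simp [mid] at h

theorem ham_of_bicl (hk : 0 < k) (hR : R < B) {α β : Fin k → Fin m}
    (hx : ∀ s t, x ((s, α s), (t, β t)) = true) : (Gr B (idx ix) x).IsHamiltonian := by
  classical
  set f : Fin (B + k * k + 1) → List (Vx k m B) := fun a => .inr a :: seg ix α β a.val with hf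
  set L : List (Vx k m B) := (List.ofFn f).flatten with hL
  have hseg : ∀ a : Fin (B + k * k + 1),
      (seg (B := B) ix α β a.val = [] ∧ (a.val < B ∨ a.val = B + k * k)) ∨
      (∃ r, a.val = (ix r).val ∧ seg (B := B) ix α β a.val = rowp r) ∨
      (∃ s t : Fin k, a.val = B + (s.val * k + t.val) ∧
        seg (B := B) ix α β a.val = chk α β s t) := by
    intro a
    rcases cases_spine ix hR.le a with ⟨r', hr⟩ | ha | ⟨s', t', ha⟩ | ha
    · by_cases hs : sel α β r'
      · left
        have := (ix r').2
        exact ⟨seg_sel ix hr hs, by omega⟩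
      · right; left
        exact ⟨r', hr, seg_row ix hr hs⟩
    · exact Or.inl ⟨seg_mid ix ha.1 ha.2, Or.inl ha.2⟩
    · exact Or.inr (Or.inr ⟨s', t', ha, seg_chk ix hR.le ha⟩)
    · exact Or.inl ⟨seg_last ix hR.le ha, Or.inr ha⟩
  have hmem : ∀ v, v ∈ L := by
    intro v
    rw [hL, List.mem_flatten]
    refine ⟨f ⟨pos ix α β v, pos_lt ix hR.le α β v⟩, List.mem_ofFn.mpr ⟨_, rfl⟩, ?_⟩
    rw [hf]
    exact (mem_iff ix hR.le _ v).mpr rfl
  have hnd : L.Nodup := by
    rw [hL, List.nodup_flatten]
    constructor
    · intro l hl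
      rw [List.mem_ofFn] at hl
      obtain ⟨a, rfl⟩ := hl
      rw [hf]
      simp only
      rw [List.nodup_cons]
      rcases hseg a with ⟨h, _⟩ | ⟨r, _, h⟩ | ⟨s, t, _, h⟩
      · rw [h]; simp
      · rw [h, mem_rowp]
        exact ⟨by simp, nodup_rowp r⟩
      · rw [h, mem_chk]
        exact ⟨by simp, nodup_chk α β s t⟩
    · rw [List.pairwise_ofFn]
      intro a a' haa v h1 h2
      have h3 := (mem_iff ix hR.le a v).mp h1
      have h4 := (mem_iff ix hR.le a' v).mp h2
      have h5 : a = a' := Fin.ext (h3.symm.trans h4)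
      exact absurd h5 (ne_of_lt haa)
  have hchain : L.IsChain (E1 (idx ix) x) := by
    rw [hL, List.isChain_flatten]
    · constructor
      · intro l hl
        rw [List.mem_ofFn] at hl
        obtain ⟨a, rfl⟩ := hl
        rw [hf]
        simp only
        rw [List.isChain_cons]
        rcases hseg a with ⟨h, _⟩ | ⟨r, ha, h⟩ | ⟨s, t, ha, h⟩
        · rw [h]; simp
        · rw [h]
          refine ⟨?_, chain_rowp ix x r⟩
          intro y hy
          rw [head_rowp hk] at hy
          simp only [Option.mem_def, Option.some.injEq] at hy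
          subst hy
          left
          simp only [E0]
          exact Or.inl ⟨rfl, trivial, ha⟩
        · rw [h]
          refine ⟨?_, chain_chk ix x (hx s t)⟩
          intro y hy
          simp only [chk, ord, List.map_cons, List.cons_append, List.head?_cons, Option.mem_def,
            Option.some.injEq] at hy
          subst hy
          left
          simp only [E0]
          exact Or.inr ⟨rfl, trivial, ha⟩
      · rw [List.isChain_ofFn]
        intro i hi v hv w hw
        simp only [hf, List.head?_cons, Option.mem_def, Option.some.injEq] at hw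
        subst hw
        simp only [hf] at hv
        rcases hseg ⟨i, by omega⟩ with ⟨h, ha⟩ | ⟨r, ha, h⟩ | ⟨s, t, ha, h⟩
        · simp only at h ha
          rw [h] at hv
          simp only [List.getLast?_singleton, Option.mem_def, Option.some.injEq] at hv
          subst hv
          left
          simp only [E0]
          left
          exact ⟨by omega, trivial⟩
        · simp only at h ha
          rw [h, List.getLast?_cons, last_rowp hk] at hv
          simp only [Option.getD_some, Option.mem_def, Option.some.injEq] at hv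
          subst hv
          left
          simp only [E0]
          left
          exact ⟨rfl, by omega, by rw [ha]; rfl⟩
        · simp only at h ha
          rw [h] at hv
          simp only [chk, ord, List.map_cons, List.map_nil, List.cons_append, List.nil_append,
            List.getLast?_cons_cons, List.getLast?_singleton, Option.mem_def,
            Option.some.injEq] at hv
          subst hv
          left
          simp only [E0]
          right
          exact ⟨rfl, trivial, by omega⟩
    · rw [List.mem_ofFn]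
      rintro ⟨a, ha⟩
      simp [hf] at ha
  have hchain' : L.IsChain (Gr B (idx ix) x).Adj := by
    refine hchain.imp ?_
    intro u v h
    rw [Gr, SimpleGraph.fromRel_adj]
    exact ⟨ne_of_e1 ix x (by omega) h, Or.inl h⟩
  have hcard : Fintype.card (Vx k m B) ≤ L.length := by
    rw [← Finset.card_univ]
    have : (Finset.univ : Finset (Vx k m B)) ⊆ L.toFinset := by
      intro v _
      rw [List.mem_toFinset]; exact hmem v
    exact (Finset.card_le_card this).trans (List.toFinset_card_le L)
  refine Pool.Agent.H545R2.isHamiltonian_of_list L hnd hmem ?_ hchain' ?_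
  · refine le_trans ?_ hcard
    rw [Fintype.card_sum, Fintype.card_fin]
    have : 0 < k * k := Nat.mul_pos hk hk
    by_cases hm : 2 ≤ B
    · omega
    · have hR0 : R = 0 := by omega
      have hm0 : m = 0 := by
        by_contra hne
        have := (ix (false, ⟨0, hk⟩, ⟨0, by omega⟩)).2
        omega
      have := (α ⟨0, hk⟩).2
      omega
  · intro u hu v hv
    have h1 : L.getLast? = some (.inr ⟨B + k * k, by omega⟩) := by
      rw [hL, List.ofFn_succ', List.concat_eq_append, List.flatten_append,
        List.flatten_singleton, List.getLast?_append_of_ne_nil _ (by simp [hf])]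
      simp only [hf]
      rw [seg_last ix hR.le (by simp)]
      rfl
    have h2 : L.head? = some (.inr ⟨0, by omega⟩) := by
      rw [hL, List.ofFn_succ, List.flatten_cons]
      rfl
    rw [h1] at hu
    rw [h2] at hv
    simp only [Option.mem_def, Option.some.injEq] at hu hv
    subst hu
    subst hv
    rw [Gr, SimpleGraph.fromRel_adj]
    have h3 : E1 (idx ix) x (.inr ⟨B + k * k, by omega⟩ : Vx k m B) (.inr ⟨0, by omega⟩) := by
      left
      simp only [E0]
      right
      simp
    exact ⟨ne_of_e1 ix x (by omega) h3, Or.inl h3⟩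

end

end Pool.Agent.V7H70.Ham
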