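import Pool.Agent.V7H70.Ham.Sub
import Pool.Agent.V7H70.Bic.Par

/-!
# Hamiltonicity is hard on average for circuits with few negations
-/

set_option autoImplicit false

namespace Pool.Agent.V7H70.Ham

open Filter Finset Pool.Agent.H520R2.NM Pool.Agent.V7H70.Bic

/-- The graph given by its adjacency bits has a Hamilton cycle. -/
def HamP (n : ℕ) (x : {p : Fin n × Fin n // p.1 < p.2} → Bool) : Prop :=
  (SimpleGraph.fromRel (fun i j : Fin n => ∃ h : i < j, x ⟨(i, j), h⟩ = true)).IsHamiltonian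

/-- reindexing of the variables -/
def reix {k M q : ℕ} (v : Vr k (M * q)) : Var k M q :=
  ((v.1.1, finProdFinEquiv.symm v.1.2), (v.2.1, finProdFinEquiv.symm v.2.2))

theorem bicl_reix {k M q : ℕ} (y : Var k M q → Bool) :
    (∃ α β : Fin k → Fin (M * q), ∀ s t, y (reix ((s, α s), (t, β t))) = true) ↔ Bicl y := by
  constructor
  · rintro ⟨α, β, h⟩
    exact ⟨fun s => finProdFinEquiv.symm (α s), fun t => finProdFinEquiv.symm (β t), h⟩
  · rintro ⟨α, β, h⟩
    refine ⟨fun s => finProdFinEquiv (α s), fun t => finProdFinEquiv (β t), fun s t => ?_⟩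
    simp only [reix, Equiv.symm_apply_apply]
    exact h s t

open Classical in
/-- The finite form. -/
theorem fin_form (t d M n : ℕ) (ht : 2 ≤ t) (hd : 1 ≤ d) (hM : 0 < M)
    (hbig : t ^ (20 * d + 24) ≤ 2 ^ t)
    (hn : 96 * (M * t ^ (8 * d + 4)) ≤ n) :
    ∃ (Λ : Type) (_ : Fintype Λ) (_ : Nonempty Λ)
      (x : Λ → {p : Fin n × Fin n // p.1 < p.2} → Bool),
      ∀ (N : ℕ) (C : Circuit {p : Fin n × Fin n // p.1 < p.2} N)
        (out : Wire {p : Fin n × Fin n // p.1 < p.2} N),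
        C.size + C.fanins.sum ≤ 2 ^ t ^ d →
        ((univ.filter fun l : Λ => (out.eval (x l) (C.vals (x l)) = true ↔
          HamP n (x l))).card : ℝ) ≤
        1 / 2 * (1 + 1 / (t : ℝ) ^ (2 * d + 1) +
        ((M * (4 * t ^ (4 * d + 2)) : ℕ) : ℝ) ^ (t ^ (2 * d + 1) + t ^ (2 * d + 1)) *
          (1 - 1 / ((2 * t ^ (2 * d) : ℕ) : ℝ)) ^ (t ^ (2 * d + 1) * t ^ (2 * d + 1)) +
        (((C.fanins.map (· + 1)).prod : ℕ) : ℝ) / (M : ℝ) ^ 2) * Fintype.card Λ := by
  have ht0 : 0 < t := by omega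
  set k := t ^ (2 * d + 1) with hk
  set q := 4 * t ^ (4 * d + 2) with hq
  have hk0 : 0 < k := Nat.pow_pos ht0
  have hsize : 18 * (k * k * (M * q)) + k * k + 2 * (k * (M * q)) + 3 ≤ n := by
    have e1 : k * k * (M * q) = 4 * (M * t ^ (8 * d + 4)) := by
      have : t ^ (8 * d + 4) = t ^ (2 * d + 1) * t ^ (2 * d + 1) * t ^ (4 * d + 2) := by
        rw [← pow_add, ← pow_add]; congr 1; ring
      rw [this, hk, hq]; ring
    have e2 : k * k ≤ M * t ^ (8 * d + 4) := by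
      have h1 : k * k = t ^ (4 * d + 2) := by rw [hk, ← pow_add]; congr 1; ring
      rw [h1]
      calc t ^ (4 * d + 2) ≤ t ^ (8 * d + 4) := Nat.pow_le_pow_right ht0 (by omega)
        _ ≤ _ := Nat.le_mul_of_pos_left _ hM
    have e3 : k * (M * q) ≤ 4 * (M * t ^ (8 * d + 4)) := by
      have h1 : k * (M * q) = 4 * (M * t ^ (6 * d + 3)) := by
        have : t ^ (6 * d + 3) = t ^ (2 * d + 1) * t ^ (4 * d + 2) := by
          rw [← pow_add]; congr 1; ring
        rw [this, hk, hq]; ring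
      rw [h1]
      exact Nat.mul_le_mul_left _ (Nat.mul_le_mul_left _ (Nat.pow_le_pow_right ht0 (by omega)))
    have e4 : 1 ≤ M * t ^ (8 * d + 4) := Nat.mul_pos hM (Nat.pow_pos ht0)
    omega
  obtain ⟨sub, hsub⟩ := exists_sub k (M * q) n hk0 hsize
  have hq0 : 0 < q := Nat.mul_pos (by norm_num) (Nat.pow_pos ht0)
  have hD0 : 0 < 2 * t ^ (2 * d) := Nat.mul_pos (by norm_num) (Nat.pow_pos ht0)
  refine ⟨Tst k M q (2 * t ^ (2 * d)), inferInstance, ?_,
    fun l p => Sum.elim id (fun v => inp l (reix v)) (sub p), ?_⟩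
  · have : Nonempty (Fin (M * M)) := ⟨⟨0, Nat.mul_pos hM hM⟩⟩
    have : Nonempty (Fin q) := ⟨⟨0, hq0⟩⟩
    have : Nonempty (Fin (2 * t ^ (2 * d))) := ⟨⟨0, hD0⟩⟩
    infer_instance
  · intro N C out hs
    -- substitution
    let sub' : {p : Fin n × Fin n // p.1 < p.2} → Bool ⊕ Var k M q :=
      fun p => Sum.map id reix (sub p)
    have h1 := hard_t t d M ht hd hM hbig (csub sub' C) (wsub sub' out)
      (by rw [csub_size, csub_fanins]; exact hs)
    rw [csub_fanins] at h1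
    have h2 : ∀ (l : Tst k M q (2 * t ^ (2 * d))),
        (fun p => Sum.elim id (inp l) (sub' p)) =
          fun p => Sum.elim id (fun v => inp l (reix v)) (sub p) := by
      intro l
      funext p
      simp only [sub']
      cases sub p with
      | inl b => rfl
      | inr a => rfl
    have h3 : (univ.filter fun l : Tst k M q (2 * t ^ (2 * d)) =>
        (out.eval (fun p => Sum.elim id (fun v => inp l (reix v)) (sub p))
          (C.vals (fun p => Sum.elim id (fun v => inp l (reix v)) (sub p))) = true ↔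
          HamP n (fun p => Sum.elim id (fun v => inp l (reix v)) (sub p)))) =
        (univ.filter fun l : Tst k M q (2 * t ^ (2 * d)) =>
          ((wsub sub' out).eval (inp l) ((csub sub' C).vals (inp l)) = true ↔
            Bicl (inp l))) := by
      refine filter_congr fun l _ => ?_
      rw [wsub_eval, csub_vals, h2, ← bicl_reix (inp l)]
      exact Iff.of_eq (congrArg _ (propext (hsub (fun v => inp l (reix v)))))
    rw [h3]
    exact h1

/-! ### asymptotics -/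

theorem tau_le {t d n : ℕ} {m : ℕ} (ht : 2 ≤ t) (hmn : m ≤ n) (hn : 1 ≤ n)
    (hlog : 2 * Real.log n + 1 ≤ (t : ℝ) / 2) :
    (m : ℝ) ^ (t ^ (2 * d + 1) + t ^ (2 * d + 1)) *
          (1 - 1 / ((2 * t ^ (2 * d) : ℕ) : ℝ)) ^ (t ^ (2 * d + 1) * t ^ (2 * d + 1)) ≤
      1 / (t : ℝ) ^ (2 * d + 1) := by
  have htR : (2 : ℝ) ≤ t := by exact_mod_cast ht
  have ht0 : (0 : ℝ) < t := by linarith
  set w : ℕ := t ^ (2 * d + 1) with hw
  have hwR : (w : ℝ) = (t : ℝ) ^ (2 * d + 1) := by rw [hw]; push_cast; ring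
  have hwpos : (0 : ℝ) < w := by rw [hwR]; positivity
  have hnR : (1 : ℝ) ≤ n := by exact_mod_cast hn
  have h1 : (m : ℝ) ^ (w + w) ≤ Real.exp (2 * w * Real.log n) := by
    have h2 : (m : ℝ) ^ (w + w) ≤ (n : ℝ) ^ (w + w) :=
      pow_le_pow_left₀ (by positivity) (by exact_mod_cast hmn) _
    refine h2.trans (le_of_eq ?_)
    have h3 : (n : ℝ) = Real.exp (Real.log n) := (Real.exp_log (by linarith)).symm
    conv_lhs => rw [h3]
    rw [← Real.exp_nat_mul]
    congr 1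
    push_cast
    ring
  have hD : (0 : ℝ) < ((2 * t ^ (2 * d) : ℕ) : ℝ) := by
    push_cast; positivity
  have hD1 : (1 : ℝ) ≤ ((2 * t ^ (2 * d) : ℕ) : ℝ) := by
    have h5 : 1 ≤ 2 * t ^ (2 * d) := by
      have : 1 ≤ t ^ (2 * d) := Nat.one_le_pow _ _ (by omega)
      omega
    exact_mod_cast h5
  have h0 : (0 : ℝ) ≤ 1 - 1 / ((2 * t ^ (2 * d) : ℕ) : ℝ) := by
    rw [sub_nonneg, div_le_one hD]; exact hD1
  have h4 : (1 - 1 / ((2 * t ^ (2 * d) : ℕ) : ℝ)) ^ (w * w) ≤ Real.exp (-(w * t / 2)) := by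
    have h5 : 1 - 1 / ((2 * t ^ (2 * d) : ℕ) : ℝ) ≤
        Real.exp (-(1 / ((2 * t ^ (2 * d) : ℕ) : ℝ))) := by
      have := Real.add_one_le_exp (-(1 / ((2 * t ^ (2 * d) : ℕ) : ℝ)))
      linarith
    refine (pow_le_pow_left₀ h0 h5 _).trans (le_of_eq ?_)
    rw [← Real.exp_nat_mul]
    congr 1
    push_cast
    rw [hwR]
    have h6 : (t : ℝ) ^ (2 * d + 1) = (t : ℝ) ^ (2 * d) * t := pow_succ _ _
    rw [h6]
    field_simp
  have h7 := mul_le_mul h1 h4 (pow_nonneg h0 _) (Real.exp_pos _).le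
  refine h7.trans ?_
  rw [← Real.exp_add, ← hwR]
  have h8 : 2 * (w : ℝ) * Real.log n + -((w : ℝ) * t / 2) ≤ -w := by nlinarith
  refine (Real.exp_le_exp.mpr h8).trans ?_
  rw [Real.exp_neg, one_div]
  refine inv_anti₀ hwpos ?_
  have := Real.add_one_le_exp (w : ℝ)
  linarith

open Classical in
/-- The asymptotic form. -/
theorem main (γ c : ℝ) (hγ : 0 ≤ γ) (hc : 0 < c) (h : γ + 16 * c < 2) :
    ∃ α : ℝ, 0 < α ∧ ∀ᶠ n : ℕ in atTop,
      ∃ (Λ : Type) (_ : Fintype Λ) (_ : Nonempty Λ)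
        (x : Λ → {p : Fin n × Fin n // p.1 < p.2} → Bool),
        ∀ (N : ℕ) (C : Circuit {p : Fin n × Fin n // p.1 < p.2} N)
          (out : Wire {p : Fin n × Fin n // p.1 < p.2} N),
          (((C.fanins.map (· + 1)).prod : ℕ) : ℝ) ≤ (n : ℝ) ^ γ →
          ((C.size + C.fanins.sum : ℕ) : ℝ) ≤ 2 ^ (n : ℝ) ^ c →
          ((univ.filter fun l : Λ => (out.eval (x l) (C.vals (x l)) = true ↔
            HamP n (x l))).card : ℝ) < (1 / 2 + (n : ℝ) ^ (-α)) * Fintype.card Λ := by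
  set θ : ℝ := (2 - γ - 16 * c) / 48 with hθ
  have hθ0 : 0 < θ := by rw [hθ]; linarith
  set d : ℕ := ⌊c / θ⌋₊ + 1 with hd
  have hd1 : 1 ≤ d := by omega
  have hcd : c < θ * d := by
    have := Nat.lt_floor_add_one (c / θ)
    rw [div_lt_iff₀ hθ0] at this
    rw [hd]
    push_cast
    linarith
  have hcd2 : θ * d ≤ c + θ := by
    have := Nat.floor_le (show 0 ≤ c / θ by positivity)
    rw [le_div_iff₀ hθ0] at this
    rw [hd]
    push_cast
    linarith
  set b : ℝ := 2 - γ - θ * (16 * d + 8) with hb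
  have hb0 : 0 < b := by
    have : θ * 48 = 2 - γ - 16 * c := by rw [hθ]; ring
    rw [hb]
    nlinarith
  set a : ℝ := min θ b / 2 with ha
  have ha0 : 0 < a := by
    have := lt_min hθ0 hb0
    rw [ha]; linarith
  have haθ : a < θ := by
    have := min_le_left θ b
    rw [ha]; linarith
  have hab : a < b := by
    have := min_le_right θ b
    rw [ha]; linarith
  refine ⟨a, ha0, ?_⟩
  -- limits
  have L0 : ∀ e : ℝ, 0 < e → Tendsto (fun n : ℕ => (n : ℝ) ^ e) atTop atTop := fun e he =>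
    (tendsto_rpow_atTop he).comp tendsto_natCast_atTop_atTop
  have L1 : Tendsto (fun n : ℕ => ⌊(n : ℝ) ^ θ⌋₊) atTop atTop :=
    tendsto_nat_floor_atTop.comp (L0 θ hθ0)
  have L2 : ∀ᶠ t : ℕ in atTop, t ^ (20 * d + 24) ≤ 2 ^ t := by
    have h1 := tendsto_pow_const_div_const_pow_of_one_lt (20 * d + 24) (r := (2 : ℝ)) (by norm_num)
    filter_upwards [h1.eventually_le_const (show (0 : ℝ) < 1 by norm_num)] with t ht
    rw [div_le_one (by positivity)] at ht
    exact_mod_cast ht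
  have L3 : ∀ᶠ n : ℕ in atTop, 2 * Real.log n + 1 ≤ (n : ℝ) ^ θ / 4 := by
    have h1 := (isLittleO_log_rpow_atTop hθ0).bound (show (0 : ℝ) < 1 / 16 by norm_num)
    have h2 := tendsto_natCast_atTop_atTop.eventually h1
    filter_upwards [h2, (L0 θ hθ0).eventually_ge_atTop 8, eventually_ge_atTop 1] with n h3 h4 h5
    rw [Real.norm_eq_abs, Real.norm_eq_abs] at h3
    have h6 : |(n : ℝ) ^ θ| = (n : ℝ) ^ θ := abs_of_nonneg (by positivity)
    rw [h6] at h3
    have := le_abs_self (Real.log n)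
    linarith
  have L4 : ∀ᶠ n : ℕ in atTop, (2 : ℝ) ^ d ≤ (n : ℝ) ^ (θ * d - c) :=
    (L0 _ (by linarith)).eventually_ge_atTop _
  have L5 : ∀ᶠ n : ℕ in atTop, (192 : ℝ) ≤ (n : ℝ) ^ (1 - θ * (8 * d + 4)) := by
    refine (L0 _ ?_).eventually_ge_atTop _
    rw [hb] at hb0
    linarith
  have L6 : ∀ᶠ n : ℕ in atTop, (8 : ℝ) ≤ (n : ℝ) ^ (θ - a) :=
    (L0 _ (by linarith)).eventually_ge_atTop _
  have L7 : ∀ᶠ n : ℕ in atTop, (100000 : ℝ) ≤ (n : ℝ) ^ (b - a) :=
    (L0 _ (by linarith)).eventually_ge_atTop _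
  filter_upwards [L1.eventually L2, L1.eventually_ge_atTop 2, L3, L4, L5, L6, L7,
    (L0 θ hθ0).eventually_ge_atTop 4, eventually_ge_atTop 2] with n hbig ht2 hlog h4 h5 h6 h7 h8 hn2
  set t : ℕ := ⌊(n : ℝ) ^ θ⌋₊ with ht
  have hnR : (2 : ℝ) ≤ n := by exact_mod_cast hn2
  have hn0 : (0 : ℝ) < n := by linarith
  have htle : (t : ℝ) ≤ (n : ℝ) ^ θ := Nat.floor_le (by positivity)
  have htlt : (n : ℝ) ^ θ < t + 1 := Nat.lt_floor_add_one _
  have htge : (n : ℝ) ^ θ / 2 ≤ t := by linarith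
  have htR : (2 : ℝ) ≤ t := by exact_mod_cast ht2
  have htR0 : (0 : ℝ) < t := by linarith
  -- the number of blocks
  set M : ℕ := n / (96 * t ^ (8 * d + 4)) with hM
  have ht0 : 0 < t := by omega
  have hTpos : 0 < 96 * t ^ (8 * d + 4) := Nat.mul_pos (by norm_num) (Nat.pow_pos ht0)
  have hTR : (t : ℝ) ^ (8 * d + 4) ≤ (n : ℝ) ^ (θ * (8 * d + 4)) := by
    calc (t : ℝ) ^ (8 * d + 4) ≤ ((n : ℝ) ^ θ) ^ (8 * d + 4) :=
          pow_le_pow_left₀ htR0.le htle _
      _ = _ := by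
        rw [← Real.rpow_natCast, ← Real.rpow_mul hn0.le]
        push_cast
        ring_nf
  have hnT : 192 * (t : ℝ) ^ (8 * d + 4) ≤ n := by
    have h9 : (n : ℝ) = (n : ℝ) ^ (1 - θ * (8 * d + 4)) * (n : ℝ) ^ (θ * (8 * d + 4)) := by
      rw [← Real.rpow_add hn0]
      have : 1 - θ * (8 * d + 4) + θ * (8 * d + 4) = 1 := by ring
      rw [this, Real.rpow_one]
    rw [h9]
    exact mul_le_mul h5 hTR (by positivity) (by positivity)
  have hMlow : (n : ℝ) / (192 * (t : ℝ) ^ (8 * d + 4)) ≤ M := by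
    have h9 : (n : ℝ) < (M + 1) * (96 * (t : ℝ) ^ (8 * d + 4)) := by
      have h10 : n < (M + 1) * (96 * t ^ (8 * d + 4)) := by
        rw [hM]
        have := Nat.lt_div_mul_add (a := n) hTpos
        linarith
      exact_mod_cast h10
    have hT0 : (0 : ℝ) < (t : ℝ) ^ (8 * d + 4) := by positivity
    rw [div_le_iff₀ (by positivity)]
    have h11 : (M : ℝ) * (192 * (t : ℝ) ^ (8 * d + 4)) =
      2 * (M * (96 * (t : ℝ) ^ (8 * d + 4))) := by ring
    rw [h11]
    nlinarith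
  have hM1 : (1 : ℝ) ≤ M := by
    refine le_trans ?_ hMlow
    rw [le_div_iff₀ (by positivity), one_mul]
    exact hnT
  have hM0 : 0 < M := by exact_mod_cast (lt_of_lt_of_le one_pos hM1)
  have hsz : 96 * (M * t ^ (8 * d + 4)) ≤ n := by
    have : M * (96 * t ^ (8 * d + 4)) ≤ n := Nat.div_mul_le_self _ _
    calc _ = M * (96 * t ^ (8 * d + 4)) := by ring
      _ ≤ n := this
  obtain ⟨Λ, i1, i2, x, hx⟩ := fin_form t d M n ht2 hd1 hM0 hbig hsz
  refine ⟨Λ, i1, i2, x, ?_⟩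
  intro N C out hprod hs
  -- the size
  have hs' : C.size + C.fanins.sum ≤ 2 ^ t ^ d := by
    have h9 : (n : ℝ) ^ c ≤ (t : ℝ) ^ d := by
      have h10 : ((n : ℝ) ^ θ / 2) ^ d ≤ (t : ℝ) ^ d := pow_le_pow_left₀ (by positivity) htge _
      refine le_trans ?_ h10
      rw [div_pow, le_div_iff₀ (by positivity), ← Real.rpow_natCast ((n : ℝ) ^ θ),
        ← Real.rpow_mul hn0.le]
      have h11 : (n : ℝ) ^ (θ * d) = (n : ℝ) ^ c * (n : ℝ) ^ (θ * d - c) := by
        rw [← Real.rpow_add hn0]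
        congr 1
        ring
      rw [h11]
      exact mul_le_mul_of_nonneg_left h4 (by positivity)
    have h10 : (2 : ℝ) ^ (n : ℝ) ^ c ≤ (2 : ℝ) ^ (t ^ d : ℕ) := by
      rw [← Real.rpow_natCast]
      refine Real.rpow_le_rpow_of_exponent_le (by norm_num) ?_
      push_cast
      exact h9
    have h11 := hs.trans h10
    exact_mod_cast h11
  have h9 := hx N C out hs'
  refine lt_of_le_of_lt h9 ?_
  have hΛ : (0 : ℝ) < Fintype.card Λ := by exact_mod_cast Fintype.card_pos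
  refine mul_lt_mul_of_pos_right ?_ hΛ
  -- the three error terms
  have hmn : M * (4 * t ^ (4 * d + 2)) ≤ n := by
    refine le_trans ?_ hsz
    calc M * (4 * t ^ (4 * d + 2)) ≤ M * (96 * t ^ (8 * d + 4)) := by
          refine Nat.mul_le_mul_left _ (Nat.mul_le_mul (by norm_num) ?_)
          exact Nat.pow_le_pow_right ht0 (by omega)
      _ = _ := by ring
  have htau := tau_le (t := t) (d := d) (n := n) (m := M * (4 * t ^ (4 * d + 2))) ht2 hmn
    (by omega) (by linarith)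
  have hw : 1 / (t : ℝ) ^ (2 * d + 1) ≤ 2 * (n : ℝ) ^ (-θ) := by
    have h10 : (n : ℝ) ^ θ / 2 ≤ (t : ℝ) ^ (2 * d + 1) := by
      refine htge.trans ?_
      exact le_self_pow₀ (by linarith) (by omega)
    have h11 : 1 / (t : ℝ) ^ (2 * d + 1) ≤ 1 / ((n : ℝ) ^ θ / 2) :=
      one_div_le_one_div_of_le (by positivity) h10
    refine h11.trans (le_of_eq ?_)
    rw [Real.rpow_neg hn0.le]
    field_simp
  have hpr : (((C.fanins.map (· + 1)).prod : ℕ) : ℝ) / (M : ℝ) ^ 2 ≤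
      36864 * (n : ℝ) ^ (-b) := by
    have h10 : (n : ℝ) / (192 * (n : ℝ) ^ (θ * (8 * d + 4))) ≤ M := by
      refine le_trans ?_ hMlow
      refine div_le_div_of_nonneg_left hn0.le (by positivity) ?_
      linarith
    have h11 : (0 : ℝ) < (n : ℝ) / (192 * (n : ℝ) ^ (θ * (8 * d + 4))) := by positivity
    have h12 : ((n : ℝ) / (192 * (n : ℝ) ^ (θ * (8 * d + 4)))) ^ 2 ≤ (M : ℝ) ^ 2 :=
      pow_le_pow_left₀ h11.le h10 2
    have h13 : (((C.fanins.map (· + 1)).prod : ℕ) : ℝ) / (M : ℝ) ^ 2 ≤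
        (n : ℝ) ^ γ / ((n : ℝ) / (192 * (n : ℝ) ^ (θ * (8 * d + 4)))) ^ 2 :=
      div_le_div₀ (by positivity) hprod (by positivity) h12
    refine h13.trans (le_of_eq ?_)
    have h14 : (n : ℝ) ^ (-b) = (n : ℝ) ^ γ * ((n : ℝ) ^ (θ * (8 * d + 4))) ^ 2 / (n : ℝ) ^ 2 := by
      rw [eq_div_iff (by positivity), ← Real.rpow_natCast ((n : ℝ) ^ (θ * (8 * d + 4))),
        ← Real.rpow_mul hn0.le, ← Real.rpow_natCast (n : ℝ) 2, ← Real.rpow_add hn0,
        ← Real.rpow_add hn0]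
      congr 1
      rw [hb]
      push_cast
      ring
    rw [h14]
    field_simp
    norm_num
  have e1 : (n : ℝ) ^ (-a) = (n : ℝ) ^ (-θ) * (n : ℝ) ^ (θ - a) := by
    rw [← Real.rpow_add hn0]; congr 1; ring
  have e2 : (n : ℝ) ^ (-a) = (n : ℝ) ^ (-b) * (n : ℝ) ^ (b - a) := by
    rw [← Real.rpow_add hn0]; congr 1; ring
  have e3 : (n : ℝ) ^ (-θ) * 8 ≤ (n : ℝ) ^ (-a) := by
    rw [e1]; exact mul_le_mul_of_nonneg_left h6 (by positivity)
  have e4 : (n : ℝ) ^ (-b) * 100000 ≤ (n : ℝ) ^ (-a) := by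
    rw [e2]; exact mul_le_mul_of_nonneg_left h7 (by positivity)
  have e5 : (0 : ℝ) < (n : ℝ) ^ (-a) := by positivity
  linarith

end Pool.Agent.V7H70.Ham
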