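import Mathlib

/-!
# Used edges of a Hamilton cycle, and the exclusive-or gadget with nine vertices
-/

set_option autoImplicit false

namespace Pool.Agent.V7H70.Ham

section

variable {V : Type*} (σ : Equiv.Perm V)

/-- `v` and `w` are neighbours on the cycle. -/
def U (v w : V) : Prop := σ v = w ∨ σ w = v

variable {σ}

theorem U.symm {v w : V} (h : U σ v w) : U σ w v := Or.symm h

theorem U.eq_or {v w : V} (h : U σ v w) : w = σ v ∨ w = σ.symm v := by
  rcases h with h | h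
  · exact Or.inl h.symm
  · right
    rw [← h, Equiv.symm_apply_apply]

theorem U.two {v a b : V} (ha : U σ v a) (hb : U σ v b) (hab : a ≠ b) {w : V} (hw : U σ v w) :
    w = a ∨ w = b := by
  rcases ha.eq_or with ha | ha <;> rcases hb.eq_or with hb | hb <;>
    rcases hw.eq_or with hw | hw <;> subst ha <;> subst hb <;> subst hw <;> simp_all

theorem exists_other (hσ : ∀ v, σ (σ v) ≠ v) {v a : V} (h : U σ v a) :
    ∃ b, b ≠ a ∧ U σ v b := by
  rcases h with h | h
  · refine ⟨σ.symm v, ?_, Or.inr (by simp)⟩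
    intro h1
    have := hσ (σ.symm v)
    rw [Equiv.apply_symm_apply] at this
    exact this (h.trans h1.symm)
  · refine ⟨σ v, ?_, Or.inl rfl⟩
    intro h1
    have := hσ a
    rw [h] at this
    exact this h1

theorem U.deg_two (hσ : ∀ v, σ (σ v) ≠ v) {v a b : V} (h : ∀ w, U σ v w → w = a ∨ w = b) :
    U σ v a ∧ U σ v b := by
  have h1 : U σ v (σ v) := Or.inl rfl
  have h2 : U σ v (σ.symm v) := Or.inr (by simp)
  have h3 : σ.symm v ≠ σ v := by
    intro h4
    have := hσ (σ.symm v)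
    rw [Equiv.apply_symm_apply] at this
    exact this h4.symm
  rcases h _ h1 with h5 | h5 <;> rcases h _ h2 with h6 | h6
  · exact absurd (h6.trans h5.symm) h3
  · exact ⟨h5 ▸ h1, h6 ▸ h2⟩
  · exact ⟨h6 ▸ h2, h5 ▸ h1⟩
  · exact absurd (h6.trans h5.symm) h3

/-- The gadget: the cycle passes either along the row, from port 0 to port 8, or along the check,
from port 6 to port 2. -/
theorem gadget (hσ : ∀ v, σ (σ v) ≠ v)
    (conn : ∀ X : Set V, X.Nonempty → (∀ v ∈ X, σ v ∈ X) → X = Set.univ)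
    (p : Fin 9 → V) (hp : Function.Injective p) (X : V → Prop) (hX : ∀ w, X w → ∀ g, w ≠ p g)
    (hout : ∃ w, ∀ g, w ≠ p g)
    (h0 : ∀ w, U σ (p 0) w → w = p 1 ∨ w = p 5 ∨ X w)
    (h1 : ∀ w, U σ (p 1) w → w = p 0 ∨ w = p 2)
    (h2 : ∀ w, U σ (p 2) w → w = p 1 ∨ w = p 3 ∨ X w)
    (h3 : ∀ w, U σ (p 3) w → w = p 4 ∨ w = p 2 ∨ w = p 8)
    (h4 : ∀ w, U σ (p 4) w → w = p 3 ∨ w = p 5)
    (h5 : ∀ w, U σ (p 5) w → w = p 4 ∨ w = p 6 ∨ w = p 0)
    (h6 : ∀ w, U σ (p 6) w → w = p 7 ∨ w = p 5 ∨ X w)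
    (h7 : ∀ w, U σ (p 7) w → w = p 6 ∨ w = p 8)
    (h8 : ∀ w, U σ (p 8) w → w = p 7 ∨ w = p 3 ∨ X w) :
    ((∃ w, X w ∧ U σ (p 0) w ∧ ∀ w', X w' → U σ (p 0) w' → w' = w) ∧
      (∃ w, X w ∧ U σ (p 8) w ∧ ∀ w', X w' → U σ (p 8) w' → w' = w) ∧
      (∀ w, U σ (p 2) w → ¬ X w) ∧ (∀ w, U σ (p 6) w → ¬ X w)) ∨
    ((∃ w, X w ∧ U σ (p 6) w ∧ ∀ w', X w' → U σ (p 6) w' → w' = w) ∧
      (∃ w, X w ∧ U σ (p 2) w ∧ ∀ w', X w' → U σ (p 2) w' → w' = w) ∧
      (∀ w, U σ (p 0) w → ¬ X w) ∧ (∀ w, U σ (p 8) w → ¬ X w)) := by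
  have ne : ∀ i j : Fin 9, i ≠ j → p i ≠ p j := fun i j h h' => h (hp h')
  obtain ⟨e10, e12⟩ := U.deg_two hσ h1
  obtain ⟨e43, e45⟩ := U.deg_two hσ h4
  obtain ⟨e76, e78⟩ := U.deg_two hσ h7
  -- external port used, given one used internal edge and an unused second internal edge
  have ext : ∀ (v a b : V), U σ v a → ¬ U σ v b → (∀ w, U σ v w → w = a ∨ w = b ∨ X w) →
      (∀ w, X w → w ≠ a) →
      ∃ w, X w ∧ U σ v w ∧ ∀ w', X w' → U σ v w' → w' = w := by
    intro v a b hva hvb hw hXa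
    obtain ⟨w, hwa, hvw⟩ := exists_other hσ hva
    rcases hw w hvw with h | h | h
    · exact absurd h hwa
    · exact absurd (h ▸ hvw) hvb
    · refine ⟨w, h, hvw, fun w' hw' hu => ?_⟩
      rcases U.two hva hvw (Ne.symm hwa) hu with h' | h'
      · exact absurd h' (hXa w' hw')
      · exact h'
  have noext : ∀ (v : V) (i j : Fin 9), U σ v (p i) → U σ v (p j) → i ≠ j →
      ∀ w, U σ v w → ¬ X w := by
    intro v i j hi hj hij w hw hXw
    rcases U.two hi hj (ne i j hij) hw with h | h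
    · exact hX w hXw i h
    · exact hX w hXw j h
  obtain ⟨w3, hw3, hu3⟩ := exists_other hσ e43.symm
  obtain ⟨w5, hw5, hu5⟩ := exists_other hσ e45.symm
  have c3 : w3 = p 2 ∨ w3 = p 8 := by
    rcases h3 w3 hu3 with h | h | h
    · exact absurd h hw3
    · exact Or.inl h
    · exact Or.inr h
  have c5 : w5 = p 6 ∨ w5 = p 0 := by
    rcases h5 w5 hu5 with h | h | h
    · exact absurd h hw5
    · exact Or.inl h
    · exact Or.inr h
  have closed : ∀ (S : Finset (Fin 9)) (_ : S.Nonempty),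
      (∀ g ∈ S, ∃ i ∈ S, ∃ j ∈ S, i ≠ j ∧ U σ (p g) (p i) ∧ U σ (p g) (p j)) → False := by
    intro S hS hcl
    have := conn {v | ∃ g ∈ S, v = p g} (by obtain ⟨g, hg⟩ := hS; exact ⟨p g, g, hg, rfl⟩) (by
      rintro v ⟨g, hg, rfl⟩
      obtain ⟨i, hi, j, hj, hij, hui, huj⟩ := hcl g hg
      rcases U.two hui huj (ne i j hij) (Or.inl rfl : U σ (p g) (σ (p g))) with h | h
      · exact ⟨i, hi, h⟩
      · exact ⟨j, hj, h⟩)
    obtain ⟨w, hw⟩ := hout
    have hmem : w ∈ {v | ∃ g ∈ S, v = p g} := by rw [this]; exact Set.mem_univ w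
    obtain ⟨g, _, h⟩ := hmem
    exact hw g h
  rcases c3 with rfl | rfl <;> rcases c5 with rfl | rfl
  · -- row mode
    left
    have n0 : ¬ U σ (p 0) (p 5) := by
      intro h
      rcases U.two e45.symm hu5 (ne 4 6 (by decide)) h.symm with h' | h'
      · exact ne 0 4 (by decide) h'
      · exact ne 0 6 (by decide) h'
    have n8 : ¬ U σ (p 8) (p 3) := by
      intro h
      rcases U.two e43.symm hu3 (ne 4 2 (by decide)) h.symm with h' | h'
      · exact ne 8 4 (by decide) h'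
      · exact ne 8 2 (by decide) h'
    exact ⟨ext (p 0) (p 1) (p 5) e10.symm n0 h0 (fun w hw => hX w hw 1),
      ext (p 8) (p 7) (p 3) e78.symm n8 h8 (fun w hw => hX w hw 7),
      noext (p 2) 1 3 e12.symm hu3.symm (by decide), noext (p 6) 7 5 e76.symm hu5.symm (by decide)⟩
  · exfalso
    refine closed {0, 1, 2, 3, 4, 5} ⟨0, by decide⟩ ?_
    intro g hg
    simp only [Finset.mem_insert, Finset.mem_singleton] at hg
    rcases hg with rfl | rfl | rfl | rfl | rfl | rfl
    · exact ⟨1, by decide, 5, by decide, by decide, e10.symm, hu5.symm⟩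
    · exact ⟨0, by decide, 2, by decide, by decide, e10, e12⟩
    · exact ⟨1, by decide, 3, by decide, by decide, e12.symm, hu3.symm⟩
    · exact ⟨4, by decide, 2, by decide, by decide, e43.symm, hu3⟩
    · exact ⟨3, by decide, 5, by decide, by decide, e43, e45⟩
    · exact ⟨4, by decide, 0, by decide, by decide, e45.symm, hu5⟩
  · exfalso
    refine closed {3, 4, 5, 6, 7, 8} ⟨3, by decide⟩ ?_
    intro g hg
    simp only [Finset.mem_insert, Finset.mem_singleton] at hg
    rcases hg with rfl | rfl | rfl | rfl | rfl | rfl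
    · exact ⟨4, by decide, 8, by decide, by decide, e43.symm, hu3⟩
    · exact ⟨3, by decide, 5, by decide, by decide, e43, e45⟩
    · exact ⟨4, by decide, 6, by decide, by decide, e45.symm, hu5⟩
    · exact ⟨7, by decide, 5, by decide, by decide, e76.symm, hu5.symm⟩
    · exact ⟨6, by decide, 8, by decide, by decide, e76, e78⟩
    · exact ⟨7, by decide, 3, by decide, by decide, e78.symm, hu3.symm⟩
  · -- check mode
    right
    have n6 : ¬ U σ (p 6) (p 5) := by
      intro h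
      rcases U.two e45.symm hu5 (ne 4 0 (by decide)) h.symm with h' | h'
      · exact ne 6 4 (by decide) h'
      · exact ne 6 0 (by decide) h'
    have n2 : ¬ U σ (p 2) (p 3) := by
      intro h
      rcases U.two e43.symm hu3 (ne 4 8 (by decide)) h.symm with h' | h'
      · exact ne 2 4 (by decide) h'
      · exact ne 2 8 (by decide) h'
    exact ⟨ext (p 6) (p 7) (p 5) e76.symm n6 h6 (fun w hw => hX w hw 7),
      ext (p 2) (p 1) (p 3) e12.symm n2 h2 (fun w hw => hX w hw 1),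
      noext (p 0) 1 5 e10.symm hu5.symm (by decide), noext (p 8) 7 3 e78.symm hu3.symm (by decide)⟩

end

end Pool.Agent.V7H70.Ham
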