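import Pool.Agent.V7H70.Ham.Cyc
import Pool.Agent.H545R2.HamCore

/-!
# The graph of a coloured biclique instance: a Hamilton cycle yields a biclique
-/

set_option autoImplicit false

namespace Pool.Agent.V7H70.Ham

/-- rows: side, class, index -/
abbrev Row (k m : ℕ) : Type := Bool × Fin k × Fin m

/-- vertices: copies of the gadget, and the spine -/
abbrev Vx (k m B : ℕ) : Type := (Row k m × Fin k × Fin 9) ⊕ Fin (B + k * k + 1)

/-- the variables -/
abbrev Vr (k m : ℕ) : Type := (Fin k × Fin m) × (Fin k × Fin m)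

/-- edges of the gadget -/
def gad (g g' : Fin 9) : Prop :=
  g'.val = g.val + 1 ∨ (g.val = 8 ∧ g'.val = 3) ∨ (g.val = 5 ∧ g'.val = 0)

variable {k m B : ℕ}

/-- the edges that are always present, directed -/
def E0 (idx : Row k m → ℕ) : Vx k m B → Vx k m B → Prop
  | .inl (r, t, g), .inl (r', t', g') =>
      r = r' ∧ ((t = t' ∧ gad g g') ∨ (t.val + 1 = t'.val ∧ g.val = 8 ∧ g'.val = 0))
  | .inr a, .inl (r, t, g) =>
      (g.val = 0 ∧ t.val = 0 ∧ a.val = idx r) ∨
        (g.val = 6 ∧ r.1 = false ∧ a.val = B + (r.2.1.val * k + t.val))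
  | .inl (r, t, g), .inr a =>
      (g.val = 8 ∧ t.val + 1 = k ∧ a.val = idx r + 1) ∨
        (g.val = 2 ∧ r.1 = true ∧ a.val = B + (t.val * k + r.2.1.val) + 1)
  | .inr a, .inr b => (a.val < B ∧ b.val = a.val + 1) ∨ (a.val = B + k * k ∧ b.val = 0)

/-- the variable of a pair of vertices -/
def mid : Vx k m B → Vx k m B → Option (Vr k m)
  | .inl (r, t, g), .inl (r', t', g') =>
      if r.1 = false ∧ r'.1 = true ∧ g.val = 2 ∧ g'.val = 6 ∧ r.2.1 = t' ∧ r'.2.1 = t then
        some ((r.2.1, r.2.2), (r'.2.1, r'.2.2)) else none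
  | _, _ => none

/-- the edges, directed -/
def E1 (idx : Row k m → ℕ) (x : Vr k m → Bool) (u v : Vx k m B) : Prop :=
  E0 idx u v ∨ ∃ a, mid u v = some a ∧ x a = true

/-- the graph -/
def Gr (B : ℕ) (idx : Row k m → ℕ) (x : Vr k m → Bool) : SimpleGraph (Vx k m B) :=
  SimpleGraph.fromRel (E1 idx x)

theorem mid_ll {r r' : Row k m} {t t' : Fin k} {g g' : Fin 9} {a : Vr k m} :
    mid (B := B) (.inl (r, t, g)) (.inl (r', t', g')) = some a ↔
      (r.1 = false ∧ r'.1 = true ∧ g.val = 2 ∧ g'.val = 6 ∧ r.2.1 = t' ∧ r'.2.1 = t) ∧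
        a = ((r.2.1, r.2.2), (r'.2.1, r'.2.2)) := by
  simp only [mid]
  split_ifs with h
  · simp only [h, Option.some.injEq, true_and]
    tauto
  · simp [h]

section

variable {idx : Row k m → ℕ} {x : Vr k m → Bool}

theorem adj_or {u v : Vx k m B} (h : (Gr B idx x).Adj u v) : E1 idx x u v ∨ E1 idx x v u := by
  rw [Gr, SimpleGraph.fromRel_adj] at h
  exact h.2

/-- neighbours in the same copy -/
theorem adj_int {r : Row k m} {t : Fin k} {g g' : Fin 9}
    (h : (Gr B idx x).Adj (.inl (r, t, g)) (.inl (r, t, g'))) : gad g g' ∨ gad g' g := by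
  rcases adj_or h with h | h
  · rcases h with h | ⟨a, h, _⟩
    · simp only [E0] at h
      rcases h.2 with h | h
      · exact Or.inl h.2
      · omega
    · rw [mid_ll] at h
      have h1 := h.1.1
      have h2 := h.1.2.1
      rw [h1] at h2
      exact absurd h2 (by simp)
  · rcases h with h | ⟨a, h, _⟩
    · simp only [E0] at h
      rcases h.2 with h | h
      · exact Or.inr h.2
      · omega
    · rw [mid_ll] at h
      have h1 := h.1.1
      have h2 := h.1.2.1
      rw [h1] at h2
      exact absurd h2 (by simp)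

/-- outside a copy -/
def Out (r : Row k m) (t : Fin k) (w : Vx k m B) : Prop := ∀ g : Fin 9, w ≠ .inl (r, t, g)

/-- the ports -/
theorem adj_out {r : Row k m} {t : Fin k} {g : Fin 9} {w : Vx k m B}
    (hadj : (Gr B idx x).Adj (.inl (r, t, g)) w) (hw : Out r t w) :
    (g.val = 0 ∧ ((t.val = 0 ∧ ∃ a, w = .inr a ∧ a.val = idx r) ∨
      ∃ t' : Fin k, t'.val + 1 = t.val ∧ w = .inl (r, t', 8))) ∨
    (g.val = 8 ∧ ((t.val + 1 = k ∧ ∃ a, w = .inr a ∧ a.val = idx r + 1) ∨
      ∃ t' : Fin k, t.val + 1 = t'.val ∧ w = .inl (r, t', 0))) ∨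
    (g.val = 6 ∧ ((r.1 = false ∧ ∃ a, w = .inr a ∧ a.val = B + (r.2.1.val * k + t.val)) ∨
      (r.1 = true ∧ ∃ i, w = .inl ((false, t, i), r.2.1, 2) ∧
        x ((t, i), (r.2.1, r.2.2)) = true))) ∨
    (g.val = 2 ∧ ((r.1 = true ∧ ∃ a, w = .inr a ∧ a.val = B + (t.val * k + r.2.1.val) + 1) ∨
      (r.1 = false ∧ ∃ j, w = .inl ((true, t, j), r.2.1, 6) ∧
        x ((r.2.1, r.2.2), (t, j)) = true))) := by
  rcases w with ⟨r', t', g'⟩ | a
  · rcases adj_or hadj with h | h
    · rcases h with h | ⟨a, h, hx⟩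
      · simp only [E0] at h
        obtain ⟨rfl, h⟩ := h
        clear hadj
        rcases h with ⟨rfl, h⟩ | h
        · exact absurd rfl (hw g')
        · right; left
          refine ⟨h.2.1, Or.inr ⟨t', h.1, ?_⟩⟩
          have : g' = 0 := Fin.ext h.2.2
          rw [this]
      · rw [mid_ll] at h
        obtain ⟨⟨h1, h2, h3, h4, h5, h6⟩, rfl⟩ := h
        right; right; right
        refine ⟨h3, Or.inr ⟨h1, r'.2.2, ?_, ?_⟩⟩
        · have : g' = 6 := Fin.ext h4
          rw [this, ← h5, ← h6, ← h2]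
        · rw [← h6]; exact hx
    · rcases h with h | ⟨a, h, hx⟩
      · simp only [E0] at h
        obtain ⟨rfl, h⟩ := h
        clear hadj
        rcases h with ⟨rfl, h⟩ | h
        · exact absurd rfl (hw g')
        · left
          refine ⟨h.2.2, Or.inr ⟨t', h.1, ?_⟩⟩
          have : g' = 8 := Fin.ext h.2.1
          rw [this]
      · rw [mid_ll] at h
        obtain ⟨⟨h1, h2, h3, h4, h5, h6⟩, rfl⟩ := h
        right; right; left
        refine ⟨h4, Or.inr ⟨h2, r'.2.2, ?_, ?_⟩⟩
        · have : g' = 2 := Fin.ext h3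
          rw [this, ← h5, h6, ← h1]
        · rw [← h5]; exact hx
  · rcases adj_or hadj with h | h
    · rcases h with h | ⟨b, h, hx⟩
      · simp only [E0] at h
        rcases h with h | h
        · exact Or.inr (Or.inl ⟨h.1, Or.inl ⟨h.2.1, a, rfl, h.2.2⟩⟩)
        · exact Or.inr (Or.inr (Or.inr ⟨h.1, Or.inl ⟨h.2.1, a, rfl, h.2.2⟩⟩))
      · simp [mid] at h
    · rcases h with h | ⟨b, h, hx⟩
      · simp only [E0] at h
        rcases h with h | h
        · exact Or.inl ⟨h.1, Or.inl ⟨h.2.1, a, rfl, h.2.2⟩⟩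
        · exact Or.inr (Or.inr (Or.inl ⟨h.1, Or.inl ⟨h.2.1, a, rfl, h.2.2⟩⟩))
      · simp [mid] at h

/-- the neighbours of a spine vertex -/
theorem adj_spine {a : Fin (B + k * k + 1)} {w : Vx k m B} (h : (Gr B idx x).Adj (.inr a) w) :
    (∃ b, w = .inr b ∧ ((a.val < B ∧ b.val = a.val + 1) ∨ (a.val = B + k * k ∧ b.val = 0) ∨
      (b.val < B ∧ a.val = b.val + 1) ∨ (b.val = B + k * k ∧ a.val = 0))) ∨
    (∃ r t, w = .inl (r, t, 0) ∧ t.val = 0 ∧ a.val = idx r) ∨
    (∃ r t, w = .inl (r, t, 8) ∧ t.val + 1 = k ∧ a.val = idx r + 1) ∨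
    (∃ s i t, w = .inl ((false, s, i), t, 6) ∧ a.val = B + (s.val * k + t.val)) ∨
    (∃ t j s, w = .inl ((true, t, j), s, 2) ∧ a.val = B + (s.val * k + t.val) + 1) := by
  rcases w with ⟨⟨d, s, i⟩, t, g⟩ | b
  · right
    rcases adj_or h with h | h
    · rcases h with h | ⟨c, h, hx⟩
      · simp only [E0] at h
        rcases h with h | h
        · left
          refine ⟨(d, s, i), t, ?_, h.2.1, h.2.2⟩
          rw [show g = 0 from Fin.ext h.1]
        · right; right; left
          refine ⟨s, i, t, ?_, h.2.2⟩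
          rw [show g = 6 from Fin.ext h.1, h.2.1]
      · simp [mid] at h
    · rcases h with h | ⟨c, h, hx⟩
      · simp only [E0] at h
        rcases h with h | h
        · right; left
          refine ⟨(d, s, i), t, ?_, h.2.1, h.2.2⟩
          rw [show g = 8 from Fin.ext h.1]
        · right; right; right
          refine ⟨s, i, t, ?_, h.2.2⟩
          rw [show g = 2 from Fin.ext h.1, h.2.1]
      · simp [mid] at h
  · left
    refine ⟨b, rfl, ?_⟩
    rcases adj_or h with h | h
    · rcases h with h | ⟨c, h, hx⟩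
      · simp only [E0] at h
        tauto
      · simp [mid] at h
    · rcases h with h | ⟨c, h, hx⟩
      · simp only [E0] at h
        tauto
      · simp [mid] at h

theorem decode {s t s' t' : Fin k} (h : s.val * k + t.val = s'.val * k + t'.val) :
    s = s' ∧ t = t' := by
  have hk : 0 < k := by have := t.2; omega
  have h1 : s.val = s'.val := by
    have h2 : (s.val * k + t.val) / k = s.val := by
      rw [Nat.add_comm, Nat.add_mul_div_right _ _ hk, Nat.div_eq_of_lt t.2, Nat.zero_add]
    have h3 : (s'.val * k + t'.val) / k = s'.val := by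
      rw [Nat.add_comm, Nat.add_mul_div_right _ _ hk, Nat.div_eq_of_lt t'.2, Nat.zero_add]
    rw [← h2, ← h3, h]
  refine ⟨Fin.ext h1, Fin.ext ?_⟩
  rw [h1] at h
  omega

/-- A Hamilton cycle yields a biclique. -/
theorem bicl_of_ham (hk : 0 < k) (hidx : ∀ r, idx r + 2 < B) (hB : 2 ≤ B)
    (h : (Gr B idx x).IsHamiltonian) :
    ∃ α β : Fin k → Fin m, ∀ s t, x ((s, α s), (t, β t)) = true := by
  classical
  have hcard : 3 ≤ Fintype.card (Vx k m B) := by
    rw [Fintype.card_sum, Fintype.card_fin]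
    omega
  obtain ⟨σ, hadj, hσ, conn⟩ := Pool.Agent.H545R2.exists_perm_of_isHamiltonian hcard h
  have ua : ∀ {v w : Vx k m B}, U σ v w → (Gr B idx x).Adj v w := by
    rintro v w (h | h)
    · rw [← h]; exact hadj v
    · rw [← h]; exact (hadj w).symm
  -- the spine vertices
  let sp : ∀ a, a < B + k * k + 1 → Vx k m B := fun a ha => .inr ⟨a, ha⟩
  -- the gadget
  have gd : ∀ (r : Row k m) (t : Fin k),
      ((∃ w, Out r t w ∧ U σ (.inl (r, t, 0)) w ∧
          ∀ w', Out r t w' → U σ (.inl (r, t, 0)) w' → w' = w) ∧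
        (∃ w, Out r t w ∧ U σ (.inl (r, t, 8)) w ∧
          ∀ w', Out r t w' → U σ (.inl (r, t, 8)) w' → w' = w) ∧
        (∀ w, U σ (.inl (r, t, 2)) w → ¬ Out r t w) ∧
        (∀ w, U σ (.inl (r, t, 6)) w → ¬ Out r t w)) ∨
      ((∃ w, Out r t w ∧ U σ (.inl (r, t, 6)) w ∧
          ∀ w', Out r t w' → U σ (.inl (r, t, 6)) w' → w' = w) ∧
        (∃ w, Out r t w ∧ U σ (.inl (r, t, 2)) w ∧
          ∀ w', Out r t w' → U σ (.inl (r, t, 2)) w' → w' = w) ∧
        (∀ w, U σ (.inl (r, t, 0)) w → ¬ Out r t w) ∧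
        (∀ w, U σ (.inl (r, t, 8)) w → ¬ Out r t w)) := by
    intro r t
    have nb : ∀ (g : Fin 9) (w : Vx k m B), U σ (.inl (r, t, g)) w →
        (∃ g', w = .inl (r, t, g') ∧ (gad g g' ∨ gad g' g)) ∨
          (Out r t w ∧ (g.val = 0 ∨ g.val = 8 ∨ g.val = 6 ∨ g.val = 2)) := by
      intro g w hu
      by_cases hw : Out r t w
      · right
        refine ⟨hw, ?_⟩
        rcases adj_out (ua hu) hw with h | h | h | h
        · exact Or.inl h.1
        · exact Or.inr (Or.inl h.1)
        · exact Or.inr (Or.inr (Or.inl h.1))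
        · exact Or.inr (Or.inr (Or.inr h.1))
      · left
        unfold Out at hw
        push Not at hw
        obtain ⟨g', rfl⟩ := hw
        exact ⟨g', rfl, adj_int (ua hu)⟩
    have nb' : ∀ (g : Fin 9) (w : Vx k m B), U σ (.inl (r, t, g)) w →
        (∃ g' : Fin 9, w = .inl (r, t, g') ∧
          ((g'.val = g.val + 1 ∨ (g.val = 8 ∧ g'.val = 3) ∨ (g.val = 5 ∧ g'.val = 0)) ∨
          (g.val = g'.val + 1 ∨ (g'.val = 8 ∧ g.val = 3) ∨ (g'.val = 5 ∧ g.val = 0)))) ∨
          (Out r t w ∧ (g.val = 0 ∨ g.val = 8 ∨ g.val = 6 ∨ g.val = 2)) := nb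
    refine gadget hσ conn (fun g => .inl (r, t, g)) ?_ (Out r t) (fun w hw g => hw g)
      ⟨.inr ⟨0, by omega⟩, fun g => by simp⟩ ?_ ?_ ?_ ?_ ?_ ?_ ?_ ?_ ?_
    · intro g g' hg
      simpa using hg
    · intro w hu
      rcases nb' 0 w hu with ⟨g', rfl, hg⟩ | h
      · have : g' = 1 ∨ g' = 5 := by
          simp only [Fin.ext_iff, Fin.isValue, Fin.val_zero, Fin.val_one] at hg ⊢
          have h5 : ((5 : Fin 9) : ℕ) = 5 := rfl
          omega
        rcases this with rfl | rfl
        · exact Or.inl rfl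
        · exact Or.inr (Or.inl rfl)
      · exact Or.inr (Or.inr h.1)
    · intro w hu
      rcases nb' 1 w hu with ⟨g', rfl, hg⟩ | h
      · have : g' = 0 ∨ g' = 2 := by
          simp only [Fin.ext_iff] at hg ⊢
          have h5 : ((1 : Fin 9) : ℕ) = 1 := rfl
          have h6 : ((0 : Fin 9) : ℕ) = 0 := rfl
          have h7 : ((2 : Fin 9) : ℕ) = 2 := rfl
          omega
        rcases this with rfl | rfl
        · exact Or.inl rfl
        · exact Or.inr rfl
      · have h5 : ((1 : Fin 9) : ℕ) = 1 := rfl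
        omega
    · intro w hu
      rcases nb' 2 w hu with ⟨g', rfl, hg⟩ | h
      · have : g' = 1 ∨ g' = 3 := by
          simp only [Fin.ext_iff] at hg ⊢
          have h5 : ((1 : Fin 9) : ℕ) = 1 := rfl
          have h6 : ((3 : Fin 9) : ℕ) = 3 := rfl
          have h7 : ((2 : Fin 9) : ℕ) = 2 := rfl
          omega
        rcases this with rfl | rfl
        · exact Or.inl rfl
        · exact Or.inr (Or.inl rfl)
      · exact Or.inr (Or.inr h.1)
    · intro w hu
      rcases nb' 3 w hu with ⟨g', rfl, hg⟩ | h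
      · have : g' = 4 ∨ g' = 2 ∨ g' = 8 := by
          simp only [Fin.ext_iff] at hg ⊢
          have h5 : ((4 : Fin 9) : ℕ) = 4 := rfl
          have h6 : ((3 : Fin 9) : ℕ) = 3 := rfl
          have h7 : ((2 : Fin 9) : ℕ) = 2 := rfl
          have h8 : ((8 : Fin 9) : ℕ) = 8 := rfl
          omega
        rcases this with rfl | rfl | rfl
        · exact Or.inl rfl
        · exact Or.inr (Or.inl rfl)
        · exact Or.inr (Or.inr rfl)
      · have h5 : ((3 : Fin 9) : ℕ) = 3 := rfl
        omega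
    · intro w hu
      rcases nb' 4 w hu with ⟨g', rfl, hg⟩ | h
      · have : g' = 3 ∨ g' = 5 := by
          simp only [Fin.ext_iff] at hg ⊢
          have h5 : ((4 : Fin 9) : ℕ) = 4 := rfl
          have h6 : ((3 : Fin 9) : ℕ) = 3 := rfl
          have h7 : ((5 : Fin 9) : ℕ) = 5 := rfl
          omega
        rcases this with rfl | rfl
        · exact Or.inl rfl
        · exact Or.inr rfl
      · have h5 : ((4 : Fin 9) : ℕ) = 4 := rfl
        omega
    · intro w hu
      rcases nb' 5 w hu with ⟨g', rfl, hg⟩ | h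
      · have : g' = 4 ∨ g' = 6 ∨ g' = 0 := by
          simp only [Fin.ext_iff] at hg ⊢
          have h5 : ((4 : Fin 9) : ℕ) = 4 := rfl
          have h6 : ((6 : Fin 9) : ℕ) = 6 := rfl
          have h7 : ((5 : Fin 9) : ℕ) = 5 := rfl
          have h8 : ((0 : Fin 9) : ℕ) = 0 := rfl
          omega
        rcases this with rfl | rfl | rfl
        · exact Or.inl rfl
        · exact Or.inr (Or.inl rfl)
        · exact Or.inr (Or.inr rfl)
      · have h5 : ((5 : Fin 9) : ℕ) = 5 := rfl
        omega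
    · intro w hu
      rcases nb' 6 w hu with ⟨g', rfl, hg⟩ | h
      · have : g' = 7 ∨ g' = 5 := by
          simp only [Fin.ext_iff] at hg ⊢
          have h5 : ((7 : Fin 9) : ℕ) = 7 := rfl
          have h6 : ((6 : Fin 9) : ℕ) = 6 := rfl
          have h7 : ((5 : Fin 9) : ℕ) = 5 := rfl
          omega
        rcases this with rfl | rfl
        · exact Or.inl rfl
        · exact Or.inr (Or.inl rfl)
      · exact Or.inr (Or.inr h.1)
    · intro w hu
      rcases nb' 7 w hu with ⟨g', rfl, hg⟩ | h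
      · have : g' = 6 ∨ g' = 8 := by
          simp only [Fin.ext_iff] at hg ⊢
          have h5 : ((7 : Fin 9) : ℕ) = 7 := rfl
          have h6 : ((6 : Fin 9) : ℕ) = 6 := rfl
          have h7 : ((8 : Fin 9) : ℕ) = 8 := rfl
          omega
        rcases this with rfl | rfl
        · exact Or.inl rfl
        · exact Or.inr rfl
      · have h5 : ((7 : Fin 9) : ℕ) = 7 := rfl
        omega
    · intro w hu
      rcases nb' 8 w hu with ⟨g', rfl, hg⟩ | h
      · have : g' = 7 ∨ g' = 3 := by
          simp only [Fin.ext_iff] at hg ⊢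
          have h5 : ((7 : Fin 9) : ℕ) = 7 := rfl
          have h6 : ((3 : Fin 9) : ℕ) = 3 := rfl
          have h7 : ((8 : Fin 9) : ℕ) = 8 := rfl
          omega
        rcases this with rfl | rfl
        · exact Or.inl rfl
        · exact Or.inr (Or.inl rfl)
      · exact Or.inr (Or.inr h.1)
  -- check mode
  let Cm : Row k m → Fin k → Prop := fun r t => ∃ w, Out r t w ∧ U σ (.inl (r, t, 6)) w
  have F1 : ∀ r t, Cm r t → (∀ w, U σ (.inl (r, t, 0)) w → ¬ Out r t w) ∧
      (∀ w, U σ (.inl (r, t, 8)) w → ¬ Out r t w) ∧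
      (∃ w, Out r t w ∧ U σ (.inl (r, t, 2)) w ∧
        ∀ w', Out r t w' → U σ (.inl (r, t, 2)) w' → w' = w) := by
    intro r t hC
    rcases gd r t with h | h
    · obtain ⟨w, h1, h2⟩ := hC
      exact absurd h1 (h.2.2.2 w h2)
    · exact ⟨h.2.2.1, h.2.2.2, h.2.1⟩
  have F2 : ∀ r t, ¬ Cm r t → (∃ w, Out r t w ∧ U σ (.inl (r, t, 0)) w) ∧
      (∃ w, Out r t w ∧ U σ (.inl (r, t, 8)) w) := by
    intro r t hC
    rcases gd r t with ⟨⟨w, h1, h2, _⟩, ⟨w', h3, h4, _⟩, _, _⟩ | ⟨⟨w, h1, h2, _⟩, _⟩
    · exact ⟨⟨w, h1, h2⟩, ⟨w', h3, h4⟩⟩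
    · exact absurd ⟨w, h1, h2⟩ hC
  have F3 : ∀ r t w, Out r t w → U σ (.inl (r, t, 2)) w → Cm r t := by
    intro r t w h1 h2
    rcases gd r t with h | ⟨⟨w', h3, h4, _⟩, _⟩
    · exact absurd h1 (h.2.2.1 w h2)
    · exact ⟨w', h3, h4⟩
  have P1 : ∀ r (t t' : Fin k), t.val + 1 = t'.val → (Cm r t ↔ Cm r t') := by
    intro r t t' htt
    have hne : t ≠ t' := by rintro rfl; omega
    constructor
    · intro h1
      by_contra h2
      obtain ⟨⟨w, hw, hu⟩, _⟩ := F2 r t' h2
      have h8 : ((8 : Fin 9) : ℕ) = 8 := rfl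
      have h0 : ((0 : Fin 9) : ℕ) = 0 := rfl
      rcases adj_out (ua hu) hw with h | h | h | h
      · rcases h.2 with h | ⟨t'', h3, rfl⟩
        · omega
        · have : t'' = t := Fin.ext (by omega)
          subst this
          refine (F1 r t'' h1).2.1 _ hu.symm ?_
          intro g hg
          simp only [Sum.inl.injEq, Prod.mk.injEq, true_and] at hg
          exact hne hg.1.symm
      · omega
      · have h6 : ((6 : Fin 9) : ℕ) = 6 := rfl
        omega
      · have h2 : ((2 : Fin 9) : ℕ) = 2 := rfl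
        omega
    · intro h1
      by_contra h2
      obtain ⟨_, ⟨w, hw, hu⟩⟩ := F2 r t h2
      have h8 : ((8 : Fin 9) : ℕ) = 8 := rfl
      have h0 : ((0 : Fin 9) : ℕ) = 0 := rfl
      rcases adj_out (ua hu) hw with h | h | h | h
      · omega
      · rcases h.2 with h | ⟨t'', h3, rfl⟩
        · have := t'.2
          omega
        · have : t'' = t' := Fin.ext (by omega)
          subst this
          refine (F1 r t'' h1).1 _ hu.symm ?_
          intro g hg
          simp only [Sum.inl.injEq, Prod.mk.injEq, true_and] at hg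
          exact hne hg.1
      · omega
      · omega
  have P2 : ∀ r (t t' : Fin k), Cm r t → Cm r t' := by
    intro r
    have h1 : ∀ (n : ℕ) (hn : n < k), Cm r ⟨n, hn⟩ ↔ Cm r ⟨0, hk⟩ := by
      intro n
      induction n with
      | zero => intro _; exact Iff.rfl
      | succ n ih =>
        intro hn
        exact (P1 r ⟨n, by omega⟩ ⟨n + 1, hn⟩ rfl).symm.trans (ih (by omega))
    intro t t' h
    exact (h1 t'.1 t'.2).mpr ((h1 t.1 t.2).mp h)
  -- one check
  have lt_kk : ∀ s t : Fin k, s.val * k + t.val < k * k := by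
    intro s t
    have h1 : s.val * k + t.val < (s.val + 1) * k := by
      have := t.2
      rw [Nat.add_mul]
      omega
    have h2 : (s.val + 1) * k ≤ k * k := Nat.mul_le_mul_right k s.2
    omega
  have lt_sp : ∀ s t : Fin k, B + (s.val * k + t.val) < B + k * k + 1 := by
    intro s t
    have := lt_kk s t
    omega
  have step : ∀ (s t : Fin k) (p0 : Vx k m B),
      U σ (.inr ⟨B + (s.val * k + t.val), lt_sp s t⟩) p0 →
      (∀ w, U σ (.inr ⟨B + (s.val * k + t.val), lt_sp s t⟩) w → w = p0 ∨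
        ∃ i, w = .inl ((false, s, i), t, 6)) →
      (∀ i, p0 ≠ .inl ((false, s, i), t, 6)) →
      ∃ i j, Cm (false, s, i) t ∧ (∀ i', Cm (false, s, i') t → i' = i) ∧
        Cm (true, t, j) s ∧ (∀ j', Cm (true, t, j') s → j' = j) ∧ x ((s, i), (t, j)) = true := by
    intro s t p0 hp0 hall hne
    have v6 : ((6 : Fin 9) : ℕ) = 6 := rfl
    have v2 : ((2 : Fin 9) : ℕ) = 2 := rfl
    obtain ⟨b, hb, hub⟩ := exists_other hσ hp0
    obtain ⟨i, rfl⟩ : ∃ i, b = .inl ((false, s, i), t, 6) := by
      rcases hall b hub with h | h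
      · exact absurd h hb
      · exact h
    have hCi : Cm (false, s, i) t := ⟨_, fun g => by simp, hub.symm⟩
    have huniq : ∀ i', Cm (false, s, i') t → i' = i := by
      intro i' hC
      obtain ⟨w, hw, hu⟩ := hC
      have : w = .inr ⟨B + (s.val * k + t.val), lt_sp s t⟩ := by
        rcases adj_out (ua hu) hw with h | h | h | h
        · omega
        · have v8 : ((8 : Fin 9) : ℕ) = 8 := rfl
          omega
        · rcases h.2 with ⟨_, a, rfl, ha⟩ | ⟨h3, _⟩
          · exact congrArg Sum.inr (Fin.ext ha)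
          · simp at h3
        · omega
      subst this
      rcases U.two hp0 hub (Ne.symm hb) hu.symm with h | h
      · exact absurd h.symm (hne i')
      · simpa using h
    obtain ⟨_, _, w, hw, hu, hwu⟩ := F1 _ _ hCi
    obtain ⟨j, rfl, hx⟩ : ∃ j, w = .inl ((true, t, j), s, 6) ∧ x ((s, i), (t, j)) = true := by
      rcases adj_out (ua hu) hw with h | h | h | h
      · omega
      · omega
      · omega
      · rcases h.2 with ⟨h3, _⟩ | ⟨_, j, h3, h4⟩
        · simp at h3
        · exact ⟨j, h3, h4⟩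
    refine ⟨i, j, hCi, huniq, ⟨_, fun g => by simp, hu.symm⟩, ?_, hx⟩
    intro j' hC
    obtain ⟨w', hw', hu'⟩ := hC
    obtain ⟨i', rfl, _⟩ : ∃ i', w' = .inl ((false, s, i'), t, 2) ∧
        x ((s, i'), (t, j')) = true := by
      rcases adj_out (ua hu') hw' with h | h | h | h
      · omega
      · have v8 : ((8 : Fin 9) : ℕ) = 8 := rfl
        omega
      · rcases h.2 with ⟨h3, _⟩ | ⟨_, i', h3, h4⟩
        · simp at h3
        · exact ⟨i', h3, h4⟩
      · omega
    have h5 : i' = i := huniq i' (F3 _ _ _ (fun g => by simp) hu'.symm)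
    subst h5
    have h6 := hwu _ (fun g => by simp) hu'.symm
    simpa using h6
  have all : ∀ (n : ℕ) (s t : Fin k), s.val * k + t.val = n →
      ∃ i j, Cm (false, s, i) t ∧ (∀ i', Cm (false, s, i') t → i' = i) ∧
        Cm (true, t, j) s ∧ (∀ j', Cm (true, t, j') s → j' = j) ∧ x ((s, i), (t, j)) = true := by
    intro n
    induction n with
    | zero =>
      intro s t hst
      have hBu : U σ (.inr ⟨B - 1, by omega⟩) (.inr ⟨B, by omega⟩ : Vx k m B) := by
        have h1 : ∀ w, U σ (.inr ⟨B - 1, by omega⟩) w →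
            w = (.inr ⟨B - 2, by omega⟩ : Vx k m B) ∨ w = .inr ⟨B, by omega⟩ := by
          intro w hu
          rcases adj_spine (ua hu) with ⟨b, rfl, h⟩ | ⟨r, t, _, _, h⟩ | ⟨r, t, _, _, h⟩ |
            ⟨s, i, t, _, h⟩ | ⟨t, j, s, _, h⟩
          · simp only at h
            have h3 : b.val = B - 2 ∨ b.val = B := by omega
            rcases h3 with h3 | h3
            · exact Or.inl (congrArg Sum.inr (Fin.ext h3))
            · exact Or.inr (congrArg Sum.inr (Fin.ext h3))
          · have := hidx r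
            simp only at h
            omega
          · have := hidx r
            simp only at h
            omega
          · simp only at h
            omega
          · simp only at h
            omega
        exact (U.deg_two hσ h1).2
      have hkk : 0 < k * k := Nat.mul_pos hk hk
      have e1 : (.inr ⟨B, by omega⟩ : Vx k m B) =
          .inr ⟨B + (s.val * k + t.val), lt_sp s t⟩ := by
        congr 1
        ext
        simp only
        omega
      rw [e1] at hBu
      refine step s t _ hBu.symm ?_ (fun i => by simp)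
      intro w hu
      rcases adj_spine (ua hu) with ⟨b, rfl, h⟩ | ⟨r, t, _, _, h⟩ | ⟨r, t, _, _, h⟩ |
            ⟨s', i, t', rfl, h⟩ | ⟨t, j, s, _, h⟩
      · left
        simp only at h
        congr 1
        ext
        simp only
        omega
      · have := hidx r
        simp only at h
        omega
      · have := hidx r
        simp only at h
        omega
      · right
        simp only at h
        obtain ⟨rfl, rfl⟩ : s' = s ∧ t' = t := decode (by omega)
        exact ⟨i, rfl⟩
      · simp only at h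
        omega
    | succ n ih =>
      intro s t hst
      have hlt := lt_sp s t
      have hn : n < k * k := by omega
      have hs' : n / k < k := Nat.div_lt_of_lt_mul hn
      have ht' : n % k < k := Nat.mod_lt _ hk
      have hdm : (n / k) * k + n % k = n := by
        rw [Nat.mul_comm]; exact Nat.div_add_mod n k
      obtain ⟨i, j, _, _, hCj, huj, _⟩ := ih ⟨n / k, hs'⟩ ⟨n % k, ht'⟩ hdm
      obtain ⟨_, _, w, hw, hu, _⟩ := F1 _ _ hCj
      have v2 : ((2 : Fin 9) : ℕ) = 2 := rfl
      have : w = .inr ⟨B + (s.val * k + t.val), hlt⟩ := by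
        rcases adj_out (ua hu) hw with h | h | h | h
        · omega
        · omega
        · omega
        · rcases h.2 with ⟨_, a, rfl, ha⟩ | ⟨h3, _⟩
          · congr 1
            ext
            simp only at ha ⊢
            omega
          · simp at h3
      subst this
      refine step s t _ hu.symm ?_ (fun i => by simp)
      intro w hu'
      rcases adj_spine (ua hu') with ⟨b, rfl, h⟩ | ⟨r, t, _, _, h⟩ | ⟨r, t, _, _, h⟩ |
            ⟨s', i, t', rfl, h⟩ | ⟨t', j', s', rfl, h⟩
      · exfalso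
        have := lt_kk s t
        simp only at h
        omega
      · have := hidx r
        simp only at h
        omega
      · have := hidx r
        simp only at h
        omega
      · right
        simp only at h
        obtain ⟨rfl, rfl⟩ : s' = s ∧ t' = t := decode (by omega)
        exact ⟨i, rfl⟩
      · left
        simp only at h
        have h4 : s'.val * k + t'.val = (⟨n / k, hs'⟩ : Fin k).val * k +
          (⟨n % k, ht'⟩ : Fin k).val := by
          simp only
          omega
        obtain ⟨rfl, rfl⟩ := decode h4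
        have h5 := huj j' (F3 _ _ _ (fun g => by simp) hu'.symm)
        rw [h5]
  have all' : ∀ s t : Fin k, ∃ i j, Cm (false, s, i) t ∧ (∀ i', Cm (false, s, i') t → i' = i) ∧
        Cm (true, t, j) s ∧ (∀ j', Cm (true, t, j') s → j' = j) ∧ x ((s, i), (t, j)) = true :=
    fun s t => all _ s t rfl
  choose α0 β0 g1 g2 g3 g4 g5 using all'
  refine ⟨fun s => α0 s ⟨0, hk⟩, fun t => β0 ⟨0, hk⟩ t, fun s t => ?_⟩
  have e1 : α0 s t = α0 s ⟨0, hk⟩ := g2 s ⟨0, hk⟩ _ (P2 _ _ _ (g1 s t))
  have e2 : β0 s t = β0 ⟨0, hk⟩ t := g4 ⟨0, hk⟩ t _ (P2 _ _ _ (g3 s t))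
  change x ((s, α0 s ⟨0, hk⟩), (t, β0 ⟨0, hk⟩ t)) = true
  rw [← e1, ← e2]
  exact g5 s t

end

end Pool.Agent.V7H70.Ham
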