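import Pool.Agent.V7H70.Ham.Build
import Pool.Agent.V7H70.Bic.Hard

/-!
# The coloured biclique function as a subfunction of Hamiltonicity
-/

set_option autoImplicit false

namespace Pool.Agent.V7H70.Ham

open Pool.Agent.H520R2.NM

theorem iso_ham {V W : Type} [Fintype V] [DecidableEq V] [Fintype W] [DecidableEq W]
    {G : SimpleGraph V} {H : SimpleGraph W} (e : G ≃g H) (h : G.IsHamiltonian) :
    H.IsHamiltonian := by
  intro hc
  have hcard : Fintype.card V = Fintype.card W := Fintype.card_congr e.toEquiv
  obtain ⟨a, p, hp⟩ := h (by rw [hcard]; exact hc)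
  exact ⟨e a, p.map e.toHom, hp.map (f := e.toHom) e.bijective⟩

open Classical in
/-- The value of the pair of vertices `u`, `v`: a constant or a variable. -/
noncomputable def val {k m B : ℕ} (idx : Row k m → ℕ) (u v : Vx k m B) : Bool ⊕ Vr k m :=
  match mid u v with
  | some a => Sum.inr a
  | none => match mid v u with
    | some a => Sum.inr a
    | none => Sum.inl (decide (E0 idx u v ∨ E0 idx v u))

theorem val_iff {k m B : ℕ} (idx : Row k m → ℕ) (x : Vr k m → Bool) (u v : Vx k m B) :
    Sum.elim id x (val idx u v) = true ↔ (E1 idx x u v ∨ E1 idx x v u) := by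
  classical
  have hE : ∀ (u v : Vx k m B) a, mid u v = some a → ¬ E0 idx u v ∧ ¬ E0 idx v u ∧
      mid v u = none := by
    intro u v a h
    rcases u with ⟨r, t, g⟩ | b <;> rcases v with ⟨r', t', g'⟩ | b'
    · rw [mid_ll] at h
      obtain ⟨⟨h1, h2, h3, h4, h5, h6⟩, _⟩ := h
      have hne : r ≠ r' := by
        rintro rfl
        rw [h1] at h2
        exact absurd h2 (by simp)
      refine ⟨?_, ?_, ?_⟩
      · simp only [E0]; exact fun h => hne h.1
      · simp only [E0]; exact fun h => hne h.1.symm
      · simp only [mid]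
        rw [if_neg]
        intro h
        rw [h2] at h
        exact absurd h.1 (by simp)
    · simp [mid] at h
    · simp [mid] at h
    · simp [mid] at h
  simp only [val, E1]
  cases h1 : mid u v with
  | some a =>
    obtain ⟨h2, h3, h4⟩ := hE u v a h1
    simp [h2, h3, h4]
  | none =>
    cases h2 : mid v u with
    | some a =>
      obtain ⟨h3, h4, _⟩ := hE v u a h2
      simp [h3, h4]
    | none => simp

/-- The coloured biclique function is a subfunction of Hamiltonicity. -/
theorem exists_sub (k m n : ℕ) (hk : 0 < k) (hn : 18 * (k * k * m) + k * k + 2 * (k * m) + 3 ≤ n) :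
    ∃ sub : {p : Fin n × Fin n // p.1 < p.2} → Bool ⊕ Vr k m, ∀ x : Vr k m → Bool,
      ((SimpleGraph.fromRel (fun i j : Fin n => ∃ h : i < j,
        Sum.elim id x (sub ⟨(i, j), h⟩) = true)).IsHamiltonian ↔
        ∃ α β : Fin k → Fin m, ∀ s t, x ((s, α s), (t, β t)) = true) := by
  classical
  obtain ⟨B, hB⟩ : ∃ B, 18 * (k * k * m) + (B + k * k + 1) = n :=
    ⟨n - (18 * (k * k * m) + k * k + 1), by omega⟩
  have hcR : Fintype.card (Row k m) = 2 * (k * m) := by
    rw [Fintype.card_prod, Fintype.card_prod, Fintype.card_bool, Fintype.card_fin,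
      Fintype.card_fin]
  have hcV : Fintype.card (Vx k m B) = n := by
    rw [Fintype.card_sum, Fintype.card_prod, hcR, Fintype.card_prod, Fintype.card_fin,
      Fintype.card_fin, Fintype.card_fin, ← hB]
    ring
  let ix : Row k m ≃ Fin (2 * (k * m)) := Fintype.equivFinOfCardEq hcR
  let e : Vx k m B ≃ Fin n := Fintype.equivFinOfCardEq hcV
  refine ⟨fun p => val (idx ix) (e.symm p.1.1) (e.symm p.1.2), fun x => ?_⟩
  have hiso : ∀ u v : Vx k m B, (SimpleGraph.fromRel (fun i j : Fin n => ∃ _ : i < j,
        Sum.elim id x (val (idx ix) (e.symm i) (e.symm j)) = true)).Adj (e u) (e v) ↔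
      (Gr B (idx ix) x).Adj u v := by
    intro u v
    rw [SimpleGraph.fromRel_adj, Gr, SimpleGraph.fromRel_adj]
    simp only [Equiv.symm_apply_apply, val_iff, exists_prop, ne_eq, EmbeddingLike.apply_eq_iff_eq]
    constructor
    · rintro ⟨h1, ⟨_, h2⟩ | ⟨_, h2⟩⟩
      · exact ⟨h1, h2⟩
      · exact ⟨h1, h2.symm⟩
    · rintro ⟨h1, h2⟩
      refine ⟨h1, ?_⟩
      rcases lt_or_gt_of_ne (fun h => h1 (e.injective h) : e u ≠ e v) with h | h
      · exact Or.inl ⟨h, h2⟩
      · exact Or.inr ⟨h, h2.symm⟩
  let iso : Gr B (idx ix) x ≃g (SimpleGraph.fromRel (fun i j : Fin n => ∃ _ : i < j,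
        Sum.elim id x (val (idx ix) (e.symm i) (e.symm j)) = true)) :=
    ⟨e, by intro u v; exact hiso u v⟩
  constructor
  · intro h
    have h1 := iso_ham iso.symm h
    refine bicl_of_ham hk ?_ (by omega) h1
    intro r
    have := (ix r).2
    change (ix r).val + 2 < B
    omega
  · rintro ⟨α, β, h⟩
    exact iso_ham iso (ham_of_bicl ix x hk (by omega) h)

/-! ### substitution in circuits -/

section

variable {ι A : Type}

/-- substitution in a wire -/
def wsub (sub : ι → Bool ⊕ A) {n : ℕ} : Wire ι n → Wire A n
  | .input i => Sum.elim (fun b => .const b) (fun a => .input a) (sub i)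
  | .const b => .const b
  | .gate j => .gate j

/-- substitution in a circuit -/
def csub (sub : ι → Bool ⊕ A) : {n : ℕ} → Circuit ι n → Circuit A n
  | _, .empty => .empty
  | _, .and C a b => .and (csub sub C) (wsub sub a) (wsub sub b)
  | _, .or C a b => .or (csub sub C) (wsub sub a) (wsub sub b)
  | _, .any C w u G a => .any (csub sub C) w u G (fun j => wsub sub (a j))

theorem wsub_eval (sub : ι → Bool ⊕ A) {n : ℕ} (w : Wire ι n) (x : A → Bool) (v : Fin n → Bool) :
    (wsub sub w).eval x v = w.eval (fun i => Sum.elim id x (sub i)) v := by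
  cases w with
  | input i =>
    simp only [wsub, Wire.eval]
    cases sub i with
    | inl b => rfl
    | inr a => rfl
  | const b => rfl
  | gate j => rfl

theorem csub_vals (sub : ι → Bool ⊕ A) {n : ℕ} (C : Circuit ι n) (x : A → Bool) :
    (csub sub C).vals x = C.vals (fun i => Sum.elim id x (sub i)) := by
  induction C with
  | empty => rfl
  | and C a b ih => simp only [csub, Circuit.vals, wsub_eval, ih]
  | or C a b ih => simp only [csub, Circuit.vals, wsub_eval, ih]
  | any C w u G a ih => simp only [csub, Circuit.vals, wsub_eval, ih]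

theorem csub_size (sub : ι → Bool ⊕ A) {n : ℕ} (C : Circuit ι n) :
    (csub sub C).size = C.size := by
  induction C with
  | empty => rfl
  | and C a b ih => simp only [csub, Circuit.size, ih]
  | or C a b ih => simp only [csub, Circuit.size, ih]
  | any C w u G a ih => simp only [csub, Circuit.size, ih]

theorem csub_fanins (sub : ι → Bool ⊕ A) {n : ℕ} (C : Circuit ι n) :
    (csub sub C).fanins = C.fanins := by
  induction C with
  | empty => rfl
  | and C a b ih => simp only [csub, Circuit.fanins, ih]
  | or C a b ih => simp only [csub, Circuit.fanins, ih]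
  | any C w u G a ih => simp only [csub, Circuit.fanins, ih]

end

end Pool.Agent.V7H70.Ham
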